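import Pool.Agent.MP_0e6a9f_ag.H45.LadA

/-! The ladder statement from the existence of the concrete ladder. -/

set_option autoImplicit false
set_option linter.unusedSectionVars false

open FMD FMD.DG

noncomputable section
namespace FMX

section
variable {K G R : Type} [Field K] [AddCommGroup G] [CommRing R] [Algebra K R] [CharP K 2]
  {A : G → Submodule K R} [SetLike.GradedMonoid A] {U : Set G} {M N N' : DG A}
  {xs fib zs : List (HE A)}

lemma fin_qis (hU : StabL U xs) {f : M.M →ₗ[R] N.M} (hf : QisOn U M N f) {j : N.M →ₗ[R] N'.M}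
    (hj : IsW xs N N' j) (hN : IsLocal xs N') {γ : G} (hγ : γ ∈ U) (h : Van xs {γ} M) :
    Cx.Qis (M.cx γ) (N'.cx γ) (j ∘ₗ f).toAddMonoidHom :=
  (((van_iff hj hN).1 (h.right hU hf (Set.singleton_subset_iff.2 hγ))).qis γ rfl).comp
    (hf.qis γ hγ)

lemma tors_mul_left {x y : HE A} (h : Tors x M) : Tors (x.mul y) M :=
  torsOn_of_pow 1 (m := y.x) (by simpa [HE.mul] using y.mem) (pow_one _) h

lemma tors_mul_right {x y : HE A} (h : Tors y M) : Tors (x.mul y) M :=
  torsOn_of_pow 1 (m := x.x) (by simpa [HE.mul] using x.mem) ((pow_one _).trans (mul_comm _ _)) h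

namespace Lad
variable {l : ℕ} {I : Type} [Fintype I] [DecidableEq I] {L : Lad A l I}

lemma Ext.dom1 (E : L.Ext xs fib zs) (T : DG A) (h : TorsL xs T) : TorsL zs T := fun w hw => by
  obtain ⟨x, hx, y, -, c, rfl⟩ := (E.mem w).1 hw
  exact tors_mul_left (h x hx)

lemma Ext.dom2 (E : L.Ext xs fib zs) (T : DG A) (h : TorsL fib T) : TorsL zs T := fun w hw => by
  obtain ⟨x, -, y, hy, c, rfl⟩ := (E.mem w).1 hw
  exact tors_mul_right (tors_mul_left (h y hy))

lemma Ext.dom3 (E : L.Ext xs fib zs) (T : DG A) (h : TorsL L.us T) : TorsL zs T := fun w hw => by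
  obtain ⟨x, -, y, -, c, rfl⟩ := (E.mem w).1 hw
  exact tors_mul_right (tors_mul_right (h _ (mem_lst.2 ⟨c, rfl⟩)))

lemma Ext.isLocal (E : L.Ext xs fib zs) (h1 : IsLocal xs M) (h2 : IsLocal fib M)
    (h3 : IsLocal L.us M) : IsLocal zs M := by
  refine isLocal_of_blocks [xs, fib, L.us] (by simp [h1, h2, h3]) ?_
  rintro _ (_ | ⟨hx, _ | ⟨hy, _ | ⟨hu, ⟨⟩⟩⟩⟩) T hT
  obtain ⟨c, rfl⟩ := mem_lst.1 hu
  refine torsOn_of_pow 1 (m := 1) ?_ (by simp [HE.mul, HE.one])
    (hT _ ((E.mem _).2 ⟨_, hx, _, hy, c, rfl⟩))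
  simpa [HE.mul, HE.one] using SetLike.one_mem_graded A

lemma ω_isW (E : L.Ext xs fib zs) : IsW zs L.P (ring A) (L.ω 0) := by
  have e : L.ω 0 = evL L.p (fun j => (0, (L.p j).s, (L.p j).t)) _ :=
    evL_congr _ _ fun j _ => if_neg (Nat.not_lt_zero _)
  rw [e]
  exact evL_isW _ (fun j T h => E.dom3 T (L.dom j T h)) _

/-- The abstract ladder. -/
theorem OK.abs (H : L.OK) (E : L.Ext xs fib zs) (hl : 0 < l) :
    ∃ (Z : DG A) (j : R →ₗ[R] Z.M), IsW zs (ring A) Z j ∧ IsLocal zs Z ∧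
      (∀ g ∈ L.U0, Van xs {g} (ring A) → Cx.Qis ((ring A).cx g) (Z.cx g) j.toAddMonoidHom) ∧
      (∀ g ∈ L.U0, Van xs {g} (ring A) → Cx.Qis ((ring A).cx g) ((homO L.P Z).cx g)
        (LinearMap.toSpanSingleton R _ (j ∘ₗ L.ω 0)).toAddMonoidHom) ∧
      (∀ g, L.ζ g = -1 → (Z.cx g).Acyc) ∧
      ∀ γ ∈ L.U0, (∀ g, Van xs {γ - L.b g} (ring A)) →
        Cx.Qis (H.W.cx γ) ((homO L.P Z).cx (γ + L.z)) (L.Ψ Z j).toAddMonoidHom := by
  have st0 : StabL L.U0 xs := fun x hx g hg =>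
    ⟨by rw [map_add, (E.hx x hx).1, hg.1, add_zero],
      fun j => by rw [map_add, (E.hx x hx).2, hg.2, add_zero]⟩
  have q1 : QisOn L.U0 (ring A) ((cechF L.us).obj (ring A)) ((cechEta L.us).app (ring A)) :=
    H.van.eta.mono fun g hg => ⟨hg.1, fun j => by rw [hg.2 j]; omega⟩
  have q2 : QisOn {g | -1 ≤ L.ζ g} ((cechF L.us).obj (ring A))
      ((cechF fib).obj ((cechF L.us).obj (ring A))) ((cechEta fib).app _) :=
    cechEta_qisOn (acycOn_cech (pl_gam fib) (fun x hx g hg => by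
      obtain ⟨c, rfl⟩ := mem_lst.1 hx
      change -1 ≤ L.ζ _
      rw [map_add, H.ζu, zero_add]
      exact hg) fun x hx => by
      obtain ⟨c, rfl⟩ := mem_lst.1 hx
      exact E.fibre c)
  have q3 := H.free.post_qisOn (U := {g | -1 ≤ L.ζ g}) q2 fun a ha a' ha' => by
    change -1 ≤ L.ζ (a + a')
    rw [map_add, show L.ζ a' = 0 from ha', add_zero]
    exact ha
  have w1 : IsW zs (ring A) ((cechF L.us).obj (ring A)) ((cechEta L.us).app (ring A)) :=
    cechEta_isW' (E.dom3 _ (torsL_gam _ _))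
  have w2 : IsW zs ((cechF L.us).obj (ring A)) ((cechF fib).obj ((cechF L.us).obj (ring A)))
      ((cechEta fib).app _) := cechEta_isW' (E.dom2 _ (torsL_gam _ _))
  have l1 : IsLocal L.us ((cechF fib).obj ((cechF L.us).obj (ring A))) :=
    (isLocal_cech _ _).cech _
  have l2 : IsLocal fib ((cechF fib).obj ((cechF L.us).obj (ring A))) := isLocal_cech _ _
  have q4 : QisOn L.U0 (ring A) (homO L.P ((cechF L.us).obj (ring A)))
      (LinearMap.toSpanSingleton R _ ((cechEta L.us).app (ring A) ∘ₗ L.ω 0)) := by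
    have hh := q1.isHom.comp (ω_isW E).isHom
    refine ⟨⟨fun hr => DG.mem_cast (M := homO L.P _) (ring_smul_mem (Z := homO L.P _) hr hh.deg)
      (zero_add _) (add_zero _), fun r => ?_⟩, fun g hg => (shift_zero_qis _ rfl).comp
        (H.ω_qis ⟨0, hl⟩ hg (by simp [Lad.a]))⟩
    change homD _ _ (r • _) = (0 : R) • _
    rw [map_smul, hh.homD, smul_zero, zero_smul]
  have q5 := H.Ψ_qisOn
  have a1 : AcycOn {g | L.ζ g = -1} ((cechF L.us).obj (ring A)) :=
    (good_cech (H.stab (-1))).acyc fun g hg => acyc_of_zero fun _ r hr =>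
      H.neg g hg r (mem_ring_iff.1 hr).1
  have e5 := fun (N : DG A) f => post_Ψ (L := L) (M := (cechF L.us).obj (ring A)) (N := N) f
    ((cechEta L.us).app (ring A))
  generalize (cechEta fib).app ((cechF L.us).obj (ring A)) = η2 at q2 q3 w2
  generalize (cechEta L.us).app (ring A) = η1 at q1 q4 q5 w1 e5
  have w3 := cechEta_isW xs ((cechF fib).obj ((cechF L.us).obj (ring A)))
  have l3 := isLocal_cech xs ((cechF fib).obj ((cechF L.us).obj (ring A)))
  have sub0 : L.U0 ⊆ {g | -1 ≤ L.ζ g} := fun g hg => by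
    change -1 ≤ L.ζ g
    rw [hg.1]
    omega
  refine ⟨(cechF xs).obj ((cechF fib).obj ((cechF L.us).obj (ring A))),
    (cechEta xs).app _ ∘ₗ η2 ∘ₗ η1, (cechEta_isW' (E.dom1 _ (torsL_gam _ _))).comp (w2.comp w1),
    E.isLocal l3 (l2.cech _) (l1.cech _), fun g hg h => ?_, fun g hg h => ?_, fun g hg => ?_,
    fun γ hγ h => ?_⟩
  · exact fin_qis st0 ((q2.mono sub0).comp q1) w3 l3 hg h
  · refine (fin_qis st0 ((q3.mono sub0).comp q4) (H.free.isFree.post_isW w3)
      (H.free.isFree.isLocal_homO l3) hg h).congr fun n (r : R) _ => Eq.symm ?_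
    exact (congrArg (post L.P _) (map_smul (post L.P η2) r _)).trans (map_smul _ r _)
  · refine (good_cech (U := {g | L.ζ g = -1}) fun x hx a ha => ?_).acyc
      ((q2.mono fun a ha => le_of_eq (Eq.symm ha)).acyc_right a1) g hg
    change L.ζ _ = -1
    rw [map_add, (E.hx x hx).1, zero_add]
    exact ha
  · have q6 : QisOn L.U0 ((homO L.P ((cechF L.us).obj (ring A))).tg L.z)
        ((homO L.P ((cechF fib).obj ((cechF L.us).obj (ring A)))).tg L.z) (post L.P η2) :=
      ⟨(DGF.tg A L.z).isHom q3.isHom, fun g hg => q3.qis (g + L.z) (by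
        change -1 ≤ L.ζ _
        rw [map_add, hg.1, H.ζz]
        omega)⟩
    refine (fin_qis st0 (q6.comp q5) (isW_tg (H.free.isFree.post_isW w3) L.z)
      ((H.free.isFree.isLocal_homO l3).tg L.z) hγ ?_).congr fun n x _ => Eq.symm ?_
    · rintro _ rfl
      refine (freeIn_Wc (D := Set.range L.b) H.h1 H.h2 H.h3 fun g => ⟨g, rfl⟩).acyc (gamF xs) ?_
      rintro _ ⟨g, rfl⟩
      exact h g _ rfl
    · exact (congrArg (post L.P _) (e5 _ η2 x)).trans (post_Ψ _ _ x)

end Lad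
end

theorem lad_of_con (K : Type) [Field K] [CharP K 2] : ConStmt K → LadStmt K := by
  intro hc T hT I _ b lev δ h1 h2 h3 hI
  classical
  obtain ⟨T', i, β, hβ, l, L, fib, hT', H, E, eb, el, eδ, hi, inj, surj⟩ :=
    hc T hT I b lev δ h1 h2 h3 hI
  obtain ⟨g0⟩ : Nonempty I := Fintype.card_pos_iff.1 (by omega)
  obtain ⟨Z, j, a1, a2, a3, a4, a5, a6⟩ := H.abs E (L.lev g0).pos
  let ψ : GH T.A (pullA i T'.A) := ⟨β, fun h => hβ _ _ h⟩
  have q := glin_qisOn (U := Set.univ) ψ (fun _ _ r _ h => inj (h.trans (map_zero β).symm))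
    fun g _ => surj g
  have hv : ∀ g, Van T.xs {g} (ring T.A) →
      Van (T.xs.map fun x => ⟨β x.x, i x.deg, hβ _ _ x.mem⟩) {i g} (ring T'.A) := fun g h => by
    have := (van_pull i ψ T.xs (ring T'.A) g).1 (h.right (stabL_univ _) q (Set.subset_univ _))
    rwa [List.map_map] at this
  have hm : ∀ g n r, r ∈ (ring T.A).gr g n → β r ∈ (ring T'.A).gr (i g) n :=
    fun g n r h => q.isHom.mem h
  have hs : ∀ g n, ∀ w ∈ (ring T'.A).gr (i g) n, ∃ r ∈ (ring T.A).gr g n, β r = w := by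
    intro g n w hw
    by_cases hn : n = 0
    · subst hn
      exact surj g w hw
    · exact ⟨0, zero_mem _, (map_zero β).trans (eq_zero_of_mem_ring hw hn).symm⟩
  have qr : ∀ g, Cx.Qis ((ring T.A).cx g) ((ring T'.A).cx (i g)) β.toRingHom.toAddMonoidHom :=
    fun g => Cx.Qis.of_bij ⟨hm g _ _, fun _ => (map_zero β).symm⟩
      (fun _ _ _ h => inj (h.trans (map_zero β).symm)) (hs g)
  have qw : ∀ γ, Cx.Qis ((Wc T.A b lev δ h1 h2 h3).cx γ) (H.W.cx (i γ))
      (β.toRingHom.toAddMonoidHom.compLeft I) := fun γ => by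
    refine Cx.Qis.of_bij ⟨fun {n x} hx g => DG.mem_cast (M := ring T'.A) (hm _ _ _ (hx g))
      (by rw [map_sub, eb]) (by rw [← el]), fun {n} {x : I → T.R} _ => funext fun g' => ?_⟩
      (fun _ _ _ h => funext fun g => inj ((congrFun h g).trans (map_zero β).symm))
      fun n w hw => ?_
    · change ∑ g, β (x g) * L.δ g g' = β (∑ g, x g * δ g g')
      simp only [map_sum, map_mul, eδ]
    · choose x hx e using fun g => hs (γ - b g) (n - lev g) (w g)
        (DG.mem_cast (M := ring T'.A) (hw g) (by rw [map_sub, eb]) (by rw [← el]))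
      exact ⟨x, hx, funext e⟩
  refine ⟨T', i, β, L.z, L.P, Z, L.ω 0, L.φ, j, hT', H.free.isFree, hβ, Lad.ω_isW E, a1, a2,
    fun g => deg_cast (H.φ_deg g) (by rw [eb]) (by rw [el]),
    fun g => (H.homD_φ g).trans (by simp only [eδ]),
    fun g h => ⟨_, (a3 _ (hi g) (hv g h)).comp (qr g), fun _ => rfl⟩,
    fun g h => ⟨_, (a4 _ (hi g) (hv g h)).comp (qr g), fun _ => rfl⟩,
    fun g => a5 _ (by rw [map_sub, (hi g).1, H.ζz, zero_sub]), fun γ h => ?_⟩
  rw [add_comm]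
  exact ⟨_, (a6 _ (hi γ) fun g => by rw [eb, ← map_sub]; exact hv _ (h g)).comp (qw γ),
    fun _ => rfl⟩

end FMX
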