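import Pool.Agent.MP_0e6a9f_ag.H45.RepB

/-! The geometric realization of a gluing from towers, products and ladders. -/

set_option autoImplicit false
set_option linter.unusedSectionVars false

open FMD FMD.DG MulOpposite
open FMD.DGR (tens tm env)

noncomputable section
namespace FMX.H45
open FMD.glue

variable {K G R G' R' : Type} [Field K] [CharP K 2] [AddCommGroup G] [CommRing R] [Algebra K R]
  [AddCommGroup G'] [CommRing R'] [Algebra K R'] {A : G → Submodule K R} {A' : G' → Submodule K R'}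
  [SetLike.GradedMonoid A] [SetLike.GradedMonoid A']

/-- The summands. -/
@[reducible] def fam {O : Type} (M N : DG A') (u v : O → G') (m : ℤ) : O ⊕ O → DG A'
  | Sum.inl o => (M.tg (u o)).sh m
  | Sum.inr o => (N.tg (v o)).sh 0

/-- Homotheties. -/
def sc (β : R →ₐ[K] R') (M : DG A') : R →+ (M.M →ₗ[R'] M.M) :=
  AddMonoidHom.mk' (fun r => β r • LinearMap.id) fun x y => by rw [map_add, add_smul]

/-- Linear combinations. -/
def ph (β : R →ₐ[K] R') {I : Type} [Fintype I] {P : DG A'} (φ : I → P.M →ₗ[R'] R') :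
    (I → R) →+ (P.M →ₗ[R'] R') :=
  AddMonoidHom.mk' (fun x => ∑ g, β (x g) • φ g) fun x y => by
    simp [add_smul, Finset.sum_add_distrib]

variable {ι : G →+ G'} {β : R →ₐ[K] R'} (hβ : ∀ g, ∀ r ∈ A g, β r ∈ A' (ι g))

include hβ in
lemma beta_mem {g : G} {k : ℤ} {r : R} (hr : r ∈ (ring A).gr g k) :
    β r ∈ (ring A').gr (ι g) k := by
  by_cases hk : k = 0
  · subst hk; exact hβ g r hr
  · rw [eq_zero_of_mem_ring hr hk, map_zero]; exact zero_mem _

include hβ in
lemma sc_mem (M : DG A') {g : G} {k : ℤ} {r : R} (hr : r ∈ (ring A).gr g k) :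
    sc β M r ∈ deg M M (ι g) k :=
  deg_cast (ring_smul_mem (Z := homO M M) (beta_mem hβ hr) (IsHom.id M).deg) (zero_add _)
    (add_zero _)

lemma sc_d (M : DG A') (r : R) : homD M M (sc β M r) = 0 :=
  (map_smul (homD M M) (β r) LinearMap.id).trans (by rw [(IsHom.id M).homD, smul_zero])

lemma sc_sum (M : DG A') {O : Type} [Fintype O] [DecidableEq O] (X Y : Matrix O O R) (o' o : O) :
    sc β M ((X * Y) o' o) = ∑ c, sc β M (X o' c) ∘ₗ sc β M (Y c o) := by
  rw [Matrix.mul_apply, map_sum]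
  refine Finset.sum_congr rfl fun c _ => LinearMap.ext fun v => ?_
  change β (_ * _) • v = β _ • β _ • v
  rw [map_mul, mul_smul]

lemma sc_smul (M : DG A') (c : K) (r : R) : sc β M (c • r) = algebraMap K R' c • sc β M r :=
  LinearMap.ext fun v => by
    change β (c • r) • v = algebraMap K R' c • β r • v
    rw [map_smul, Algebra.smul_def, mul_smul]

variable {C : DGR} [Algebra K C.B] [C.KL K] (θ₁ θ₂ : C.B →ₐ[K] Matrix C.O C.O R)
  (Θ : (env K C C).B →ₐ[K] Matrix (env K C C).O (env K C C).O R) (n : Tw (env K C C))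
  {P Z : DG A'} (φ : n.I → P.M →ₗ[R'] R') (u v : C.O → G') (m : ℤ)

variable (β) in
/-- The matrix coefficients of the representation. -/
def rr : ∀ o o' : C.O ⊕ C.O, (glue (Fr n)).B →+
    ((fam P (ring A') u v m o).M →ₗ[R'] (fam P (ring A') u v m o').M)
  | Sum.inl o, Sum.inl o' => (sc β P).comp ((ent θ₁ o' o).comp (p₁ (Fr n)).f.toAddMonoidHom)
  | Sum.inl o, Sum.inr o' => (ph β φ).comp ((row Θ n (o', o)).comp (pN (Fr n)))
  | Sum.inr _, Sum.inl _ => 0
  | Sum.inr o, Sum.inr o' => (sc β (ring A')).comp ((ent θ₂ o' o).comp (p₂ (Fr n)).f.toAddMonoidHom)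

/-- The local replacements of the summands. -/
def jj (aug : P.M →ₗ[R'] R') (j : R' →ₗ[R'] Z.M) :
    ∀ o : C.O ⊕ C.O, (fam P (ring A') u v m o).M →ₗ[R'] (fam Z Z u v m o).M
  | Sum.inl _ => j ∘ₗ aug
  | Sum.inr _ => j

lemma rr_lin (o o' : C.O ⊕ C.O) (c : K) (x : (glue (Fr n)).B) :
    rr β θ₁ θ₂ Θ n φ u v m o o' (c • x) = algebraMap K R' c • rr β θ₁ θ₂ Θ n φ u v m o o' x := by
  rcases o with o | o <;> rcases o' with o' | o'
  · exact (congrArg (fun M => sc β P (M o' o)) (map_smul θ₁ c _)).trans (sc_smul P c _)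
  · change ∑ g, β (row Θ n (o', o) (c • pN _ x) g) • φ g =
      algebraMap K R' c • ∑ g, β (row Θ n (o', o) (pN _ x) g) • φ g
    rw [Finset.smul_sum]
    exact Finset.sum_congr rfl fun g _ => by rw [row_smul, map_smul, Algebra.smul_def, mul_smul]
  · exact (smul_zero _).symm
  · exact (congrArg (fun M => sc β (ring A') (M o' o)) (map_smul θ₂ c _)).trans (sc_smul _ c _)

variable {θ₁ θ₂ Θ φ u v m} {a₁ a₂ : C.O → G} {b : (env K C C).O → G} {z : G'} {lev : n.I → ℕ}
  (hC : Flat C) (H₁ : Theta C A a₁ θ₁) (H₂ : Theta C A a₂ θ₂) (H : Theta (env K C C) A b Θ)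
  (hb : ∀ o' o, b (o', o) = a₂ o' - a₁ o)
  (hΘ : ∀ x y o₁' o₂' o₁ o₂, Θ (tm K C C.op x (op y)) (o₁', o₂') (o₁, o₂) =
    θ₂ x o₁' o₁ * θ₁ y o₂ o₂')
  (hl : ∀ i, (lev i : ℤ) = n.deg i - m) (hu : ∀ o, u o = ι (a₁ o) - z) (hv : ∀ o, v o = ι (a₂ o))
  (hφ : ∀ g, φ g ∈ deg P (ring A') (z + ι (b (n.ob g))) (lev g))
  (dφ : ∀ g, homD P (ring A') (φ g) = ∑ g', β (dl Θ n g g') • φ g')

include hβ hC H₁ H₂ H hb hΘ hl hu hv hφ dφ in
lemma rr_mat : Mat (C := glue (Fr n)) (fam P (ring A') u v m) (rr β θ₁ θ₂ Θ n φ u v m) where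
  e1 := by
    rintro (o | o)
    · change β (θ₁ (C.e o) o o) • (LinearMap.id : P.M →ₗ[R'] P.M) = LinearMap.id
      simp [H₁.e]
    · change β (θ₂ (C.e o) o o) • (LinearMap.id : R' →ₗ[R'] R') = LinearMap.id
      simp [H₂.e]
  e0 := by
    rintro (o | o) (o' | o') c h
    · rcases c with c | c
      · change β (θ₁ (C.e c) o' o) • (LinearMap.id : P.M →ₗ[R'] P.M) = 0
        rw [H₁.e, Matrix.single_apply_of_ne _ _ _ _ _ (by rintro ⟨rfl, rfl⟩; simp at h), map_zero,
          zero_smul]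
      · change β (θ₁ 0 o' o) • (LinearMap.id : P.M →ₗ[R'] P.M) = 0
        simp
    · change ph β φ (row Θ n (o', o) (pN _ _)) = 0
      rw [pN_e, map_zero, map_zero]
    · rfl
    · rcases c with c | c
      · change β (θ₂ 0 o' o) • (LinearMap.id : R' →ₗ[R'] R') = 0
        simp
      · change β (θ₂ (C.e c) o' o) • (LinearMap.id : R' →ₗ[R'] R') = 0
        rw [H₂.e, Matrix.single_apply_of_ne _ _ _ _ _ (by rintro ⟨rfl, rfl⟩; simp at h), map_zero,
          zero_smul]
  mul := by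
    rintro (o | o) (o' | o') x y <;> rw [sum_glue]
    · refine ((congrArg (fun M => sc β P (M o' o)) (map_mul θ₁ _ _)).trans
        (sc_sum P _ _ _ _)).trans (Eq.symm (add_eq_left.2 ?_))
      exact Finset.sum_eq_zero fun c _ => LinearMap.zero_comp _
    · refine LinearMap.ext fun t => ?_
      change ph β φ (row Θ n (o', o) (pN _ (x * y))) t =
        (∑ c, ph β φ (row Θ n (o', c) (pN _ x)) ∘ₗ sc β P (θ₁ ((p₁ _).f y) c o) +
          ∑ c, sc β (ring A') (θ₂ ((p₂ _).f x) o' c) ∘ₗ ph β φ (row Θ n (c, o) (pN _ y))) t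
      simp only [pN_mul, map_add, ph, sc, AddMonoidHom.mk'_apply, LinearMap.add_apply,
        LinearMap.sum_apply, LinearMap.comp_apply, LinearMap.smul_apply, LinearMap.id_apply,
        row_l n hΘ, row_r n hΘ, map_sum, map_mul, map_smul, smul_eq_mul, Finset.sum_mul,
        Finset.mul_sum, mul_assoc]
      rw [add_comm, Finset.sum_comm, Finset.sum_comm (f := fun i c => β (θ₂ _ o' c) * _)]
    · exact Eq.symm (add_eq_zero_iff_eq_neg.2 ((Finset.sum_eq_zero fun c _ =>
        LinearMap.comp_zero _).trans (neg_eq_zero.2 (Finset.sum_eq_zero fun c _ =>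
          LinearMap.zero_comp _)).symm))
    · refine ((congrArg (fun M => sc β (ring A') (M o' o)) (map_mul θ₂ _ _)).trans
        (sc_sum _ _ _ _ _)).trans (Eq.symm (add_eq_right.2 ?_))
      exact Finset.sum_eq_zero fun c _ => LinearMap.comp_zero _
  mem := by
    rintro (o | o) (o' | o') k x hx
    · exact (regr P P (c := 0) (by rw [hu, hu, map_sub]; abel) (sub_self _).symm).mem
        (deg_cast (sc_mem hβ P (theta_mem H₁ hC hx.1 o' o)) rfl (add_zero _).symm)
    · refine (regr P (ring A') (g := z + ι (b (o', o))) (c := -m)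
        (by rw [hu, hv, hb, map_sub]; abel) (zero_sub _).symm).mem (sum_mem fun g _ => ?_)
      exact deg_cast (ring_smul_mem (Z := homO P (ring A'))
        (beta_mem hβ (row_mem H hC n (o', o) hx.2.2 g)) (hφ g)) (by rw [map_sub]; abel)
        (by rw [hl]; ring)
    · exact zero_mem _
    · exact (regr (ring A') (ring A') (c := 0) (by rw [hv, hv, map_sub]) (sub_self _).symm).mem
        (deg_cast (sc_mem hβ _ (theta_mem H₂ hC hx.2.1 o' o)) rfl (add_zero _).symm)
  d := by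
    rintro (o | o) (o' | o') x
    · refine (sc_d P _).trans (Eq.symm ?_)
      change sc β P (ent θ₁ o' o (C.d _)) = 0
      rw [hC.d, map_zero, map_zero]
    · change homD P (ring A') (∑ g, β (row Θ n (o', o) (pN _ x) g) • φ g) =
        ∑ g, β (row Θ n (o', o) ((Fr n).d (pN _ x)) g) • φ g
      simp only [row_d H hC n, map_sum, map_smul, dφ, Matrix.vecMul, dotProduct, map_mul,
        Finset.smul_sum, Finset.sum_smul, mul_smul]
      exact Finset.sum_comm
    · exact map_zero _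
    · refine (sc_d (ring A') _).trans (Eq.symm ?_)
      change sc β (ring A') (ent θ₂ o' o (C.d _)) = 0
      rw [hC.d, map_zero, map_zero]

variable {xs : List (HE A)} {aug : P.M →ₗ[R'] R'} {j : R' →ₗ[R'] Z.M}

lemma rr_qis (haug : IsHom P (ring A') aug) (hj : IsHom (ring A') Z j)
    (van : ∀ q' q, Van xs {b q' - b q} (ring A))
    (q₂ : ∀ g, Van xs {g} (ring A) → ∃ f, Cx.Qis ((ring A).cx g) (Z.cx (ι g)) f ∧
      ∀ r, f r = j (β r))
    (q₁ : ∀ g, Van xs {g} (ring A) → ∃ f, Cx.Qis ((ring A).cx g) ((homO P Z).cx (ι g)) f ∧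
      ∀ r, f r = β r • j ∘ₗ aug)
    (q₀ : ∀ g, (Z.cx (ι g - z)).Acyc)
    (qN : ∀ γ, (∀ g, Van xs {γ - b (n.ob g)} (ring A)) →
      ∃ f, Cx.Qis ((Wc A (fun g => b (n.ob g)) lev (dl Θ n) (dl_mem H n) (dl_lev hC n hl)
        (dl_dl H hC n)).cx γ) ((homO P Z).cx (z + ι γ)) f ∧
        ∀ x : n.I → R, f x = ∑ g, β (x g) • j ∘ₗ φ g) :
    Cx.Qis (glue (Fr n)).self.cx (hom (pi (fam P (ring A') u v m)) (pi (fam Z Z u v m)))
      ((rr_mat hβ n hC H₁ H₂ H hb hΘ hl hu hv hφ dφ).rep.unitMap (diag (jj u v m aug j))) := by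
  refine Mat.qis (C := glue (Fr n)) _ ?_ ?_
  · rintro (o | o)
    exacts [⟨(hj.comp haug).mem, (hj.comp haug).comm⟩, ⟨hj.mem, hj.comm⟩]
  rintro (o | o) (o' | o')
  · obtain ⟨f, hf, e⟩ := q₁ (a₁ o' - a₁ o) (by
      simpa only [hb, sub_sub_sub_cancel_left] using van (o, o) (o, o'))
    refine ((regr P Z (by rw [hu, hu, map_sub]; abel) (sub_self _).symm).comp ((qis_shift hf 0).comp
      ((theta_qis H₁ hC o o').comp (cor₁ (Fr n) o o')))).congr fun _ x _ => ?_
    exact (LinearMap.comp_smul (j ∘ₗ aug) _ LinearMap.id).trans (e _).symm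
  · obtain ⟨f, hf, e⟩ := qN (b (o', o)) fun g => van _ _
    refine ((regr P Z (by rw [hu, hv, hb, map_sub]; abel) (zero_sub _).symm).comp
      ((qis_shift hf (-m)).comp ((row_qis H hC n hl o o').comp (corN (Fr n) o o')))).congr
      fun _ x _ => Eq.trans ?_ (e _).symm
    exact (map_sum (LinearMap.llcomp R' P.M R' Z.M j) _ _).trans
      (Finset.sum_congr rfl fun g _ => map_smul (LinearMap.llcomp R' P.M R' Z.M j) _ _)
  · refine (Cx.Qis.of_acyc (f := 0) ⟨fun _ => zero_mem _, fun _ => map_zero _⟩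
      (cor₀ _ o o') fun k => ?_).congr fun _ _ _ => LinearMap.comp_zero (j ∘ₗ aug)
    refine (regr (ring A') Z (g := ι (a₁ o' - a₂ o) - z) (c := m) (by rw [hu, hv, map_sub]; abel)
      (sub_zero _).symm).acyc_right ((Cx.shift_acycAt _ _ _).2 ?_)
    exact ((ev_ring_qis Z).qis _ trivial).acyc_left (q₀ _ _)
  · obtain ⟨f, hf, e⟩ := q₂ (a₂ o' - a₂ o) (by
      simpa only [hb, sub_sub_sub_cancel_right] using van (o', o) (o, o))
    have h1 : Cx.Qis ((ring A).cx (a₂ o' - a₂ o)) ((homO (ring A') Z).cx (ι (a₂ o' - a₂ o)))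
        ((LinearMap.llcomp R' _ _ _ j).toAddMonoidHom.comp (sc β (ring A'))) :=
      ((ev_ring_qis Z).qis _ trivial).of_comp_left
        ⟨fun h => deg_cast (comp_deg hj.deg (sc_mem hβ _ h)) (zero_add _) (zero_add _),
          fun {_ r} _ => (homD_comp (M := ring A') (N := ring A') j (sc β (ring A') r)).trans (by
            rw [hj.homD, sc_d, LinearMap.zero_comp, zero_add]
            exact congrArg (j ∘ₗ ·) (map_zero (sc β (ring A'))).symm)⟩
        (hf.congr fun _ r _ => (congrArg j (mul_one _)).trans (e r).symm)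
    exact ((regr (ring A') Z (by rw [hv, hv, map_sub]) (sub_self _).symm).comp
      ((qis_shift h1 0).comp ((theta_qis H₂ hC o o').comp (cor₂ (Fr n) o o')))).congr
      fun _ _ _ => rfl

end FMX.H45

namespace FMX
open H45

/-- The opposite category is realized on the same tower. -/
def H45.realOp {K : Type} [Field K] [CharP K 2] {C : DGR} [Algebra K C.B] (R : Real K C) :
    Real K C.op where
  T := R.T
  ok := R.ok
  a o := -R.a o
  θ := opθ R.θ
  theta := theta_op R.theta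
  van o' o := by
    rw [show -R.a o' - -R.a o = R.a o - R.a o' by abel]
    exact R.van o o'
  zero := R.zero

theorem geo (K : Type) [Field K] [CharP K 2] :
    TowerStmt K → ProdStmt K → LadStmt K → GeoStmt K := by
  intro tower prd lad C _ _ h1 h2 h3 R n hn
  have hC : Flat C := ⟨h1, h2, h3⟩
  obtain ⟨S, i₁, i₂, j₁, j₂, ha, hθ, H₂, H₁'⟩ := prd C C.op R (realOp R)
  have H₁ : Theta C S.T.A (fun o => j₂ (R.a o)) (i₂.mapMatrix.comp R.θ) :=
    theta_unop H₁' (fun o => map_neg j₂ _) fun _ => rfl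
  have hb : ∀ o' o, S.a (o', o) = j₁ (R.a o') - j₂ (R.a o) := fun o' o =>
    (ha o' o).trans ((congrArg _ (map_neg j₂ _)).trans (sub_eq_add_neg _ _).symm)
  obtain ⟨m, hm⟩ := (Set.finite_range n.deg).bddBelow
  have hl : ∀ i, ((n.deg i - m).toNat : ℤ) = n.deg i - m := fun i =>
    Int.toNat_of_nonneg (sub_nonneg.2 (hm ⟨i, rfl⟩))
  obtain ⟨T, ι, β, z, P, Z, aug, φ, j, ok, fr, hβ, haug, hj, loc, hφ, dφ, q₂, q₁, q₀, qN⟩ :=
    lad S.T S.ok n.I (fun i => S.a (n.ob i)) _ (dl S.θ n) (dl_mem S.theta n) (dl_lev hC n hl)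
      (dl_dl S.theta hC n) hn
  obtain ⟨V, _, blk, I, ψ, xs, smooth, reg, sub, sup, chart, hon, eqv⟩ := tower T ok
  have hΘ : ∀ x y o₁' o₂' o₁ o₂, S.θ (tm K C C.op x (op y)) (o₁', o₂') (o₁, o₂) =
      (i₁.mapMatrix.comp R.θ) x o₁' o₁ * (i₂.mapMatrix.comp R.θ) y o₂ o₂' :=
    fun x y => hθ x (op y)
  have M := rr_mat hβ n hC H₁ H₂ S.theta hb hΘ hl (fun _ => rfl) (fun _ => rfl) hφ dφ
  refine ⟨{
    X := MP.mk T.ι V blk I, R := T.R, A := T.A, φ := ψ, xs := xs, T := _, Z := _, ρ := M.rep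
    j := _, smooth := smooth, reg := reg, sub := sub, sup := sup, chart := chart, hon := hon
    free := free_pi ?_, lin := M.lin (rr_lin _ _ _ _ _ _ _ _), isW := eqv_isW eqv (isW_pi ?_)
    isLocal := eqv_isLocal eqv (acyc_pi _ ?_)
    qis := rr_qis hβ n hC H₁ H₂ S.theta hb hΘ hl (fun _ => rfl) (fun _ => rfl) hφ dφ haug.isHom
      hj.isHom S.van q₂ q₁ q₀ qN }⟩
  · rintro (o | o)
    exacts [free_tw fr _ _, free_tw free_ring _ _]
  · rintro (o | o)
    exacts [isW_tw (hj.comp haug) _ _, isW_tw hj _ _]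
  · rintro (o | o)
    exacts [(loc.tg _).sh _, (loc.tg _).sh _]

end FMX
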