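import Pool.Agent.MP_0e6a9f_ag.H32.Lad1

/-! The filtration of the ladder: the maps `φ g` generate the maps into the Cech complex. -/

set_option autoImplicit false
set_option linter.unusedSectionVars false

open FMD FMD.DG

noncomputable section
namespace FMX

variable {K G R : Type} [Field K] [AddCommGroup G] [CommRing R] [Algebra K R] [CharP K 2]
  {A : G → Submodule K R} [SetLike.GradedMonoid A] {U : Set G} {M N Y : DG A}

lemma tors_cone_right {Q : DG A} {x : HE A} (hU : Stab U x.deg) {f : Q.M →ₗ[R] M.M}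
    {g : M.M →ₗ[R] N.M} (hf : IsHom Q M f) (hg : IsHom M N g) (h1 : TorsOn U x (cone hf))
    (h2 : TorsOn U x (cone (hg.comp hf))) : TorsOn U x (cone hg) :=
  (torsOn_iff hU).2 (((locF x).qisOn_iff hg).1 (QisOn.of_comp_right ((locF x).isHom hg)
    (((locF x).qisOn_iff hf).2 ((torsOn_iff hU).1 h1))
    ((locF x).map_comp Q M N g f ▸ ((locF x).qisOn_iff (hg.comp hf)).2 ((torsOn_iff hU).1 h2))))

/-- Keep the coordinates in `S`. -/
def msk {I : Type} [DecidableEq I] (S : Finset I) : (I → R) →+ (I → R) where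
  toFun x g := if g ∈ S then x g else 0
  map_zero' := by ext g; simp
  map_add' x y := by ext g; by_cases h : g ∈ S <;> simp [h]

omit [Algebra K R] [CharP K 2] [Field K] in
lemma msk_apply {I : Type} [DecidableEq I] (S : Finset I) (x : I → R) (g : I) :
    msk S x g = if g ∈ S then x g else 0 := rfl

omit [Algebra K R] [CharP K 2] [Field K] in
lemma comb_d {I V : Type} [Fintype I] [AddCommGroup V] [Module R V] (D : V →ₗ[R] V) (v : I → V)
    (δ : Matrix I I R) (h : ∀ g, D (v g) = ∑ g', δ g g' • v g') (x : I → R) :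
    D (Fintype.linearCombination R v x) = Fintype.linearCombination R v (Matrix.vecMul x δ) := by
  simp only [Fintype.linearCombination_apply, map_sum, map_smul, h, Finset.smul_sum, smul_smul,
    Matrix.vecMul, dotProduct, Finset.sum_smul]
  exact Finset.sum_comm

namespace Lad
variable {l : ℕ} {I : Type} [Fintype I] [DecidableEq I] {L : Lad A l I} {S S' : Finset I}

lemma DC.msk_d (hS : L.DC S) (x : I → R) :
    msk S (Matrix.vecMul (msk S x) L.δ) = msk S (Matrix.vecMul x L.δ) := by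
  ext g'
  rw [msk_apply, msk_apply]
  split_ifs with h
  · refine Finset.sum_congr rfl fun g _ => ?_
    by_cases h0 : L.δ g g' = 0
    · simp [h0]
    · rw [msk_apply, if_pos (hS g g' h h0)]
  · rfl

variable (L) in
/-- The combination of the maps `u ∘ φ g`. -/
def Ψ (Y : DG A) (u : R →ₗ[R] Y.M) : (I → R) →ₗ[R] (homO L.P Y).M :=
  Fintype.linearCombination R fun g => u ∘ₗ L.φ g

lemma Ψ_apply (u : R →ₗ[R] Y.M) (x : I → R) : L.Ψ Y u x = ∑ g, x g • u ∘ₗ L.φ g := rfl

lemma post_Ψ (f : M.M →ₗ[R] N.M) (u : R →ₗ[R] M.M) (x : I → R) :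
    post L.P f (L.Ψ M u x) = L.Ψ N (f ∘ₗ u) x := by
  rw [Ψ_apply, Ψ_apply, map_sum]
  exact Finset.sum_congr rfl fun g _ => map_smul _ _ _

variable (H : L.OK)

/-- The free complex of the ladder. -/
abbrev OK.W : DG A := Wc A L.b (fun g => (L.lev g).val) L.δ H.h1 H.h2 H.h3

lemma OK.msk_mem {γ : G} {n : ℤ} {x : I → R} (h : x ∈ H.W.gr γ n) : msk S x ∈ H.W.gr γ n :=
  fun g => by
    rw [msk_apply]
    split_ifs
    exacts [h g, zero_mem _]

/-- The quotient complex on the generators in `S`. -/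
def OK.WS (hS : L.DC S) (γ : G) : Cx where
  V := I → R
  gr n :=
    { carrier := {x | x ∈ H.W.gr γ n ∧ ∀ g ∉ S, x g = 0}
      add_mem' := fun h h' => ⟨add_mem h.1 h'.1, fun g hg => by simp [h.2 g hg, h'.2 g hg]⟩
      zero_mem' := ⟨zero_mem _, fun _ _ => rfl⟩
      neg_mem' := fun h => ⟨neg_mem h.1, fun g hg => by simp [h.2 g hg]⟩ }
  d := (msk S).comp H.W.d.toAddMonoidHom
  two := two_mod K R
  d_mem h := ⟨H.msk_mem (H.W.d_mem h.1), fun _ hg => if_neg hg⟩
  d_d {_ x} _ := (hS.msk_d _).trans ((congrArg (msk S) (H.W.d_d x)).trans (map_zero _))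

include H

lemma OK.Ψ_isHom {u : R →ₗ[R] Y.M} (hu : IsHom (ring A) Y u) :
    IsHom H.W ((homO L.P Y).tg L.z) (L.Ψ Y u) := by
  refine ⟨fun {γ n x} hx => sum_mem fun g _ => DG.mem_cast (M := homO L.P Y)
    (ring_smul_mem (Z := homO L.P Y) (hx g) (comp_deg hu.deg (H.φ_deg g))) (by abel) (by ring),
    fun x => ?_⟩
  refine comb_d (homD L.P Y) (fun g => u ∘ₗ L.φ g) L.δ (fun g => ?_) x
  rw [homD_comp (N := ring A), hu.homD, LinearMap.zero_comp, zero_add, H.homD_φ]
  exact (map_sum (LinearMap.llcomp R _ _ _ u) _ _).trans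
    (Finset.sum_congr rfl fun _ _ => map_smul _ _ _)

variable (L S) in
/-- The map to the Cech complex of the quotient ring. -/
abbrev uS : R →ₗ[R] ((cechF L.us).obj (cyc A (L.id S))).M :=
  (cechEta L.us).app (cyc A (L.id S)) ∘ₗ (L.id S).mkQ

lemma OK.Ψ_msk (hS : L.DC S) (x : I → R) :
    L.Ψ _ (L.uS S) (msk S x) = L.Ψ _ (L.uS S) x := by
  refine Finset.sum_congr rfl fun g _ => ?_
  rw [msk_apply]
  split_ifs with h
  · rfl
  · have : L.uS S ∘ₗ L.φ g = 0 := LinearMap.ext fun v =>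
      (congrArg ((cechEta L.us).app (cyc A (L.id S)))
        ((Submodule.Quotient.mk_eq_zero _).2 (H.φ_mem hS h v))).trans (map_zero _)
    exact (congrArg _ this).trans ((smul_zero _).trans ((smul_zero _).symm.trans
      (congrArg _ this.symm)))

lemma OK.Ψ_isMap (hS : L.DC S) (γ : G) : Cx.IsMap (H.WS hS γ)
    ((homO L.P ((cechF L.us).obj (cyc A (L.id S)))).cx (γ + L.z))
    (L.Ψ _ (L.uS S)).toAddMonoidHom :=
  have h := H.Ψ_isHom (((cechEta L.us).isHom (cyc A (L.id S))).comp (mk_isHom (L.id S)))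
  ⟨fun hx => h.mem hx.1, fun {_ x} _ => (h.comm x).trans (H.Ψ_msk hS _).symm⟩

lemma OK.ker_step {g : I} (hg : g ∈ S) (c : Fin l → Bool) {a : G} (ha : L.ζ a = 0) {m : R}
    (hm : m ∈ A a) (h : m * L.sc c g ∈ L.id S) : ∃ j : ℕ, (L.u c).x ^ j * m = 0 := by
  obtain ⟨j, hj⟩ := h c
  refine ⟨j, H.ind c g _ ?_ _ (SetLike.mul_mem_graded ((L.u c).pow_mem j) hm) ?_⟩
  · simp [H.ζu, ha]
  · rw [mul_assoc]
    exact Ideal.span_mono (Set.image_mono (Set.compl_subset_compl.2 (by simpa using hg))) hj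

lemma OK.surj_step {g : I} (hS : L.DC (insert g S')) (c : Fin l → Bool) {γ : G} (hγ : L.ζ γ = 1) {r : R} (hr : r ∈ A γ)
    (hr' : r ∈ L.id S') : ∃ (m : ℕ) (w : R),
      w ∈ A (m • (L.u c).deg + γ - (L.e g + (L.p (L.lev g)).h)) ∧
      w * L.sc c g - (L.u c).x ^ m * r ∈ L.id (insert g S') := by
  obtain ⟨m, w, hw, e2⟩ := H.surj c γ hγ r hr
  obtain ⟨j, hj⟩ := hr' c
  have h6 : ∀ g' ∈ S', w g' = 0 := fun g' hg' => H.pow_nz c j _ (H.ind c g' _ (by
      simp [H.ζu, H.ζh, H.ζe, hγ]) _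
    (SetLike.mul_mem_graded ((L.u c).pow_mem j) (hw g')) (by
      have e3 : (L.u c).x ^ j * w g' * L.sc c g' = (L.u c).x ^ m * ((L.u c).x ^ j * r) -
          (L.u c).x ^ j * ∑ g'' ∈ Finset.univ.erase g', w g'' * L.sc c g'' := by
        rw [mul_left_comm, e2, ← Finset.add_sum_erase _ _ (Finset.mem_univ g')]
        ring
      rw [e3]
      exact sub_mem (Ideal.mul_mem_left _ _ (Ideal.span_mono (Set.image_mono
        (Set.compl_subset_compl.2 (by simpa using hg'))) hj))
        (Ideal.mul_mem_left _ _ (sum_mem fun g'' h => Ideal.mul_mem_left _ _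
          (Ideal.subset_span ⟨g'', (Finset.mem_erase.1 h).1, rfl⟩)))))
  refine ⟨m, w g, hw g, ?_⟩
  rw [e2, ← Finset.add_sum_erase _ _ (Finset.mem_univ g), sub_add_cancel_left]
  refine neg_mem (sum_mem fun g' h => ?_)
  by_cases h' : g' ∈ S'
  · rw [h6 g' h', zero_mul]
    exact zero_mem _
  · exact Ideal.mul_mem_left _ _ (H.σ_mem hS (by simp [h', (Finset.mem_erase.1 h).1]) _)

/-- The kernel of one step of the filtration is the Koszul complex of a pair on the charts. -/
lemma OK.tors_step {g : I} (hS : L.DC (insert g S')) {Q : DG A}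
    {ι : Q.M →ₗ[R] R ⧸ L.id (insert g S')} (hQ : ∀ m, Q.d m = 0) (inj : Function.Injective ι)
    (mem : ∀ a n, ∀ v ∈ Q.gr a n, ∃ r ∈ (ring A).gr (a + L.e g) n, r ∈ L.id S' ∧
      ι v = (L.id (insert g S')).mkQ r)
    {e : ((L.p (L.lev g)).kk (ring A)).M →ₗ[R] Q.M}
    (he : IsHom ((L.p (L.lev g)).kk (ring A)) Q e)
    (hι : ∀ v, ι (e v) = (L.id (insert g S')).mkQ
      ((L.p (L.lev g)).ev (ring A) (0, L.σ g true, L.σ g false) v))
    (c : Fin l → Bool) : TorsOn {a | L.ζ a = 0} (L.u c) (cone he) := by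
  obtain ⟨s0, h1, κ, h2, h3, h4, h5⟩ := (L.p (L.lev g)).aug_inv (ring A) (c (L.lev g))
  have hs0 : IsHom ((ring A).tg (-(L.p (L.lev g)).h)) ((L.p (L.lev g)).kk (ring A)) s0 :=
    ⟨fun h => DG.mem_cast (h1 _ _ _ h) (by abel) (add_zero _), comm_of_homD h3⟩
  have hv : ∀ r : R, ι (e (s0 r)) = (L.id (insert g S')).mkQ (r * L.sc c g) := fun r => by
    rw [hι]
    refine congrArg _ ((LinearMap.congr_fun (h5 _) r).trans ?_)
    rw [mul_comm, sc]
    cases c (L.lev g) <;> rfl
  have t1 : Tors ((L.p (L.lev g)).he (c (L.lev g))) (cone hs0) :=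
    tors_cone_of_inv hs0
      (σ := (L.p (L.lev g)).ev (ring A) (0, (L.p (L.lev g)).s, (L.p (L.lev g)).t))
      (fun a n v hv => DG.mem_cast (M := ring A) (((L.p (L.lev g)).aug_isHom _).mem hv)
        (show a = (L.p (L.lev g)).h + a + -(L.p (L.lev g)).h by abel) (add_zero _).symm)
      ((L.p (L.lev g)).aug_isHom (ring A)).homD (zero_mem _) h2
      (by rw [map_zero, add_zero]; exact h5 _) h4
  have t2 : TorsOn {a | L.ζ a = 0} (L.u c) (cone (he.comp hs0)) := by
    refine torsOn_cone_single _ (fun _ => rfl) hQ (fun a ha n m hm h0 => ?_) fun a ha n v hv' => ?_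
    · refine H.ker_step (Finset.mem_insert_self g S') c ?_ (mem_ring_iff.1 hm).1
        ((Submodule.Quotient.mk_eq_zero _).1
          ((hv m).symm.trans ((congrArg ι h0).trans (map_zero _))))
      simpa [H.ζh] using ha
    · obtain ⟨r, hr, hr', e1⟩ := mem _ _ v hv'
      by_cases hn : n = 0
      · subst hn
        obtain ⟨m, w, hw, e2⟩ := H.surj_step hS c (γ := a + L.e g)
          (by simpa [H.ζe] using ha) hr hr'
        refine ⟨m, w, DG.mem_cast (M := ring A) (n := 0) hw (by abel) rfl, inj ?_⟩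
        rw [map_smul, e1, ← map_smul]
        exact (hv _).trans ((Submodule.Quotient.eq _).2 e2)
      · refine ⟨0, 0, zero_mem _, inj ?_⟩
        rw [map_zero, map_zero, map_smul, e1, eq_zero_of_mem_ring hr hn, map_zero, smul_zero]
  exact tors_cone_right (H.stab 0 _ (mem_lst.2 ⟨c, rfl⟩)) hs0 he
    (L.tors_u c (L.lev g) fun a _ => t1 a trivial) t2

lemma OK.ρ_qis (k : Fin l) {g γ : G} (hg : g ∈ L.U0) (e : γ = g - L.a k) :
    Cx.Qis ((ring A).cx g)
      (((homO L.P ((cechF L.us).obj ((L.p k).kk (ring A)))).cx γ).shift k.val)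
      (LinearMap.toSpanSingleton R _
        ((cechEta L.us).app ((L.p k).kk (ring A)) ∘ₗ L.ρ k)).toAddMonoidHom := by
  have hη := (cechEta L.us).isHom ((L.p k).kk (ring A))
  have qa := H.free.post_qisOn (U := Set.univ)
    (isW_of_dom (L.dom k) ((L.p k).aug_isW (ring A))).cech_qis fun _ _ _ _ => trivial
  refine (shift_qis (qa.qis γ trivial) k.val).of_comp_left
    (span_isMap (M := homO L.P ((cechF L.us).obj ((L.p k).kk (ring A))))
      (deg_cast (comp_deg hη.deg (L.ρ_deg k)) (zero_add _) (zero_add _)) ?_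
      (by rw [e]; abel)) ((H.ω_qis k hg e).congr fun n r _ => LinearMap.ext fun v => ?_)
  · exact (homD_comp (N := (L.p k).kk (ring A)) _ _).trans (by
      rw [hη.homD, L.homD_ρ, LinearMap.zero_comp, LinearMap.comp_zero, add_zero])
  · refine (map_smul ((cechF L.us).map _ _ _) r _).trans (congrArg (r • ·) ?_)
    refine ((cechEta L.us).nat _ (ring A) _ _).symm.trans (congrArg _ ?_)
    exact LinearMap.congr_fun ((L.ev_ρ k _).trans (L.om_aug k)) v

lemma OK.first_qis {g : I} {Q : DG A} {e : ((L.p (L.lev g)).kk (ring A)).M →ₗ[R] Q.M}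
    (he : IsHom ((L.p (L.lev g)).kk (ring A)) (Q.tg (L.e g)) e)
    (ht : ∀ c, TorsOn {a | L.ζ a = 0} (L.u c) (cone he)) {γ : G} (hγ : γ ∈ L.U0) :
    ∃ f, Cx.Qis (((ring A).cx (γ - L.b g)).shift (-((L.lev g).val : ℤ)))
      ((homO L.P ((cechF L.us).obj Q)).cx (γ + L.z)) f ∧
      ∀ r : R, f r = r • ((cechEta L.us).app Q ∘ₗ e ∘ₗ L.ρ (L.lev g)) := by
  have hb := H.hb g
  have q0 := unshift (H.ρ_qis (L.lev g) (g := γ - L.b g) ⟨by rw [map_sub, hγ.1, hb.1, sub_zero],
    fun j => by rw [map_sub, hγ.2, hb.2, sub_zero]⟩ rfl)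
  have q1 := H.free.post_qisOn (U := {a | L.ζ a = 0}) (cech_qisOn (H.stab 0) he fun x hx => by
    obtain ⟨c, rfl⟩ := mem_lst.1 hx
    exact ht c) fun a ha a' ha' => by
      change L.ζ (a + a') = 0
      rw [map_add, show L.ζ a = 0 from ha, show L.ζ a' = 0 from ha', add_zero]
  have q2 := tg_qis ((homF L.P).comp (cechF L.us)) Q (L.e g)
    (g := γ - L.b g - L.a (L.lev g)) (g' := γ + L.z) (by rw [Lad.e]; abel)
  refine ⟨_, q2.comp ((q1.qis _ ?_).comp q0), fun r => LinearMap.ext fun v => ?_⟩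
  · change L.ζ _ = 0
    rw [map_sub, map_sub, hγ.1, hb.1, H.ζa, sub_zero, sub_zero]
  · change (cechF L.us).map (Q.tg (L.e g)) Q LinearMap.id ((cechF L.us).map _ (Q.tg (L.e g)) e
      (r • (cechEta L.us).app _ (L.ρ (L.lev g) v))) = r • (cechEta L.us).app Q (e (L.ρ _ v))
    rw [map_smul, map_smul, ← (cechEta L.us).nat, ← (cechEta L.us).nat]
    rfl

lemma OK.top_ses {g : I} (hg : g ∉ S') (hmax : ∀ x ∈ S', L.lev x ≤ L.lev g)
    (hS : L.DC (insert g S')) (hS' : L.DC S') (γ : G) :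
    Cx.SES (((ring A).cx (γ - L.b g)).shift (-((L.lev g).val : ℤ))) (H.WS hS γ) (H.WS hS' γ)
      (AddMonoidHom.single (fun _ : I => R) g) (msk S') := by
  refine ⟨⟨fun {n r} hr => ⟨fun g' => ?_, fun g' h => ?_⟩, fun {n} {r : R} _ => funext fun g' => ?_⟩,
    ⟨fun h => ⟨H.msk_mem h.1, fun _ hg => if_neg hg⟩, fun {n x} _ => ?_⟩, fun n r _ h => ?_,
    fun n (r : R) _ => funext fun g' => ?_, fun n x hx h => ⟨x g, hx.1 g, funext fun g' => ?_⟩,
    fun n w hw => ⟨w, ⟨hw.1, fun g' h => hw.2 g' fun h' => h (Finset.mem_insert_of_mem h')⟩,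
      funext fun g' => ?_⟩⟩
  · change (Pi.single g r : I → R) g' ∈ _
    by_cases e : g' = g
    · subst e
      rw [Pi.single_eq_same]
      exact hr
    · rw [Pi.single_eq_of_ne e]
      exact zero_mem _
  · exact Pi.single_eq_of_ne (by rintro rfl; exact h (Finset.mem_insert_self _ _)) _
  · change msk _ (Matrix.vecMul (Pi.single g r) L.δ) g' = (Pi.single g (0 : R) : I → R) g'
    rw [msk_apply, Matrix.single_vecMul, Pi.single_zero]
    split_ifs with h
    · by_cases h0 : L.δ g g' = 0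
      · simp [Matrix.row, h0]
      · have h1 := H.h2 g g' h0
        have h2 : L.lev g' ≤ L.lev g := by
          rcases Finset.mem_insert.1 h with rfl | h
          exacts [le_rfl, hmax _ h]
        have h3 : (L.lev g').val ≤ (L.lev g).val := h2
        omega
    · rfl
  · refine (hS'.msk_d x).trans (funext fun g' => ?_)
    change msk S' _ g' = msk S' (msk _ _) g'
    rw [msk_apply, msk_apply, msk_apply]
    split_ifs with h h'
    · rfl
    · exact absurd (Finset.mem_insert_of_mem h) h'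
    · rfl
  · exact (Pi.single_eq_same (M := fun _ : I => R) g r).symm.trans (congrFun h g)
  · change msk S' (Pi.single g r) g' = 0
    rw [msk_apply]
    split_ifs with h
    · exact Pi.single_eq_of_ne (by rintro rfl; exact hg h) _
    · rfl
  · change (Pi.single g (x g) : I → R) g' = x g'
    by_cases e : g' = g
    · rw [e, Pi.single_eq_same]
    · rw [Pi.single_eq_of_ne e]
      by_cases h' : g' ∈ S'
      · exact (congrFun h g').symm.trans (if_pos h')
      · exact (hx.2 g' (by simp [e, h'])).symm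
  · refine (msk_apply S' w g').trans ?_
    split_ifs with h
    · rfl
    · exact (hw.2 g' h).symm

lemma OK.filt_qis : ∀ (S : Finset I) (hS : L.DC S), ∀ γ ∈ L.U0, Cx.Qis (H.WS hS γ)
    ((homO L.P ((cechF L.us).obj (cyc A (L.id S)))).cx (γ + L.z))
    (L.Ψ _ (L.uS S)).toAddMonoidHom := by
  intro S
  induction S using Finset.induction_on_max_value L.lev with
  | empty =>
    intro hS γ hγ
    refine Cx.Qis.of_acyc (H.Ψ_isMap hS γ) (fun n x hx _ => ?_)
      (H.free.homO_acyc DGF.good_id fun a ha => (good_cech (H.stab 1)).acyc (fun a ha =>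
        acyc_of_zero ?_) _ ?_)
    · rw [show x = 0 from funext fun g => hx.2 g (Finset.notMem_empty g)]
      exact Cx.Bd.zero n
    · rintro n _ ⟨r, hr, rfl⟩
      refine (Submodule.Quotient.mk_eq_zero _).2 fun c => ?_
      obtain ⟨m, w, -, e⟩ := H.surj c a ha r (mem_ring_iff.1 hr).1
      exact ⟨m, e ▸ sum_mem fun g _ => Ideal.mul_mem_left _ _ (Ideal.subset_span ⟨g, by simp, rfl⟩)⟩
    · change L.ζ _ = 1
      rw [map_add, map_add, hγ.1, H.ζz, show L.ζ a = 0 from ha, zero_add, add_zero]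
  | insert g S' hg hmax ih =>
    intro hS γ hγ
    have hup : ∀ g', L.δ g g' ≠ 0 → g' ∉ insert g S' := fun g' h0 h => by
      have h1 := H.h2 g g' h0
      have h2 : L.lev g' ≤ L.lev g := by
        rcases Finset.mem_insert.1 h with rfl | h
        exacts [le_rfl, hmax _ h]
      have h3 : (L.lev g').val ≤ (L.lev g).val := h2
      omega
    have hS' : L.DC S' := fun g'' g' h h0 =>
      (Finset.mem_insert.1 (hS g'' g' (Finset.mem_insert_of_mem h) h0)).resolve_left
        (by rintro rfl; exact hup g' h0 (Finset.mem_insert_of_mem h))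
    have hle := L.id_mono (Finset.subset_insert g S')
    have T := ker_ses (U := Set.univ) (factor_isHom (A := A) hle) (by
      rintro a - n _ ⟨r, hr, rfl⟩
      exact ⟨_, ⟨r, hr, rfl⟩, rfl⟩)
    have hk : ∀ v, ((L.id (insert g S')).mkQ ∘ₗ
        (L.p (L.lev g)).ev (ring A) (0, L.σ g true, L.σ g false)) v ∈
          LinearMap.ker (Submodule.factor hle) := fun v =>
      (Submodule.Quotient.mk_eq_zero _).2 (by
        rw [Pr.ev_apply, zero_smul, zero_add]
        exact add_mem (Ideal.mul_mem_right _ _ (H.σ_mem hS' hg _))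
          (Ideal.mul_mem_right _ _ (H.σ_mem hS' hg _)))
    have he : IsHom ((L.p (L.lev g)).kk (ring A)) (DG.tg ((cyc A (L.id (insert g S'))).sub
        (LinearMap.ker (Submodule.factor hle)) fun m hm => by
          rw [LinearMap.mem_ker, ← (factor_isHom (A := A) hle).comm,
            show Submodule.factor hle m = 0 from hm, map_zero]) (L.e g))
        (LinearMap.codRestrict _ _ hk) := by
      refine ⟨fun {a n v} hv => (mk_isHom (A := A) _).mem (DG.mem_cast (M := ring A)
        (Pr.mid_deg _ (H.hσ g true) (H.hσ g false) _ _ _ hv) (add_comm _ _) (add_zero _)),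
        fun v => Subtype.ext (Eq.symm ((Submodule.Quotient.mk_eq_zero _).2 ?_))⟩
      have e := LinearMap.congr_fun ((L.p (L.lev g)).homD_ev (M := ring A)
        (0, L.σ g true, L.σ g false)) v
      rw [homD_apply] at e
      refine ((zero_add _).symm.trans e).symm ▸ ?_
      rw [Pr.ev_apply, Pr.del, zero_smul, zero_smul, add_zero, add_zero]
      exact Ideal.mul_mem_right _ _ (H.D_mem hup)
    obtain ⟨f, hf, ef⟩ := H.first_qis he (H.tors_step hS (ι := Submodule.subtype _)
      (fun m => Subtype.ext (by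
        obtain ⟨m, hm⟩ := m
        obtain ⟨m, rfl⟩ := (L.id (insert g S')).mkQ_surjective m
        rfl)) Subtype.val_injective (by
        rintro a n ⟨_, hv⟩ ⟨r, hr, rfl⟩
        exact ⟨r, hr, (Submodule.Quotient.mk_eq_zero _).1 hv, rfl⟩) he fun _ => rfl) hγ
    refine (H.top_ses hg hmax hS hS' γ).qis₂ ((((good_hom H.free.isFree).comp
      (good_cech (stabL_univ L.us))).ses T).ses (γ + L.z) trivial) hf (H.Ψ_isMap hS γ)
      (ih hS' γ hγ) (fun n (r : R) _ => ?_) fun n x _ => ?_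
    · rw [ef]
      refine (Fintype.linearCombination_apply_single R _ g r).trans (LinearMap.ext fun v => ?_)
      refine Eq.trans ?_ (map_smul ((cechF L.us).map _ _ _) r _).symm
      refine congrArg (fun w : ((cechF L.us).obj (cyc A (L.id (insert g S')))).M => r • w) ?_
      refine Eq.trans ?_ ((cechEta L.us).nat _ _ _ _)
      exact congrArg (L.uS _) (LinearMap.congr_fun (L.ev_ρ _ _) v).symm
    · refine (H.Ψ_msk hS' x).trans (Eq.trans ?_ (post_Ψ _ _ x).symm)
      exact congrArg (L.Ψ _ · x) (LinearMap.ext fun r => (cechEta L.us).nat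
        (cyc A (L.id (insert g S'))) (cyc A (L.id S')) (Submodule.factor hle)
        ((L.id (insert g S')).mkQ r))

/-- The maps `φ g` generate the maps into the Cech complex of the ladder. -/
lemma OK.Ψ_qisOn : QisOn L.U0 H.W ((homO L.P ((cechF L.us).obj (ring A))).tg L.z)
    (L.Ψ _ ((cechEta L.us).app (ring A))) := by
  have hh := H.Ψ_isHom ((cechEta L.us).isHom (ring A))
  refine ⟨hh, fun γ hγ => ?_⟩
  have hS : L.DC Finset.univ := fun _ _ _ _ => Finset.mem_univ _
  have q1 := ((good_hom H.free.isFree).comp (good_cech (stabL_univ L.us))).qis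
    (mk_qisOn (A := A) (U := Set.univ) (L.id Finset.univ) fun _ _ r _ h => by
      obtain ⟨m, hm⟩ := h fun _ => true
      exact H.pow_nz _ m r (by simpa using hm))
  have q2 : Cx.Qis (H.W.cx γ) (H.WS hS γ) (AddMonoidHom.id _) :=
    Cx.Qis.of_bij ⟨fun h => ⟨h, fun g hg => absurd (Finset.mem_univ g) hg⟩,
      fun _ => funext fun g => if_pos (Finset.mem_univ g)⟩ (fun _ _ _ h => h)
      fun _ w hw => ⟨w, hw.1, rfl⟩
  refine (q1.qis (γ + L.z) trivial).of_comp_left (hh.cx γ)
    (((H.filt_qis _ hS γ hγ).comp q2).congr fun n x _ => (post_Ψ _ _ x).trans ?_)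
  exact congrArg (L.Ψ _ · x) (LinearMap.ext fun r => ((cechEta L.us).nat
    (ring A) (cyc A (L.id Finset.univ)) (L.id Finset.univ).mkQ r).symm)

end Lad

end FMX
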