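import Pool.Agent.MP_0e6a9f_ag.H32.GeoSpec

/-! Finite direct sums of complexes and of differential modules; representations by matrices. -/

set_option autoImplicit false
set_option linter.unusedSectionVars false

open FMD FMD.DG

noncomputable section
namespace FMX.H45

lemma bd_sum {C : Cx} {J : Type} (s : Finset J) {n : ℤ} {z : J → C.V} (h : ∀ j, C.Bd n (z j)) :
    C.Bd n (∑ j ∈ s, z j) :=
  Finset.sum_induction z (C.Bd n) (fun _ _ => Cx.Bd.add) (Cx.Bd.zero n) fun j _ => h j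

lemma qis_of_sum {C C' : Cx} {J : Type} [Fintype J] {Q Q' : J → Cx} {f : C.V →+ C'.V}
    (hf : Cx.IsMap C C' f) {p : ∀ j, C.V →+ (Q j).V} {s : ∀ j, (Q j).V →+ C.V}
    {p' : ∀ j, C'.V →+ (Q' j).V} {s' : ∀ j, (Q' j).V →+ C'.V}
    (hp : ∀ j, Cx.IsMap C (Q j) (p j)) (hs : ∀ j, Cx.IsMap (Q j) C (s j))
    (hp' : ∀ j, Cx.IsMap C' (Q' j) (p' j)) (hs' : ∀ j, Cx.IsMap (Q' j) C' (s' j))
    (tot : ∀ v, ∑ j, s j (p j v) = v) (tot' : ∀ v, ∑ j, s' j (p' j v) = v)
    {g : ∀ j, (Q j).V →+ (Q' j).V} (hg : ∀ j, Cx.Qis (Q j) (Q' j) (g j))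
    (e : ∀ j v, p' j (f v) = g j (p j v))
    (e' : ∀ j n, ∀ v ∈ (Q j).gr n, f (s j v) = s' j (g j v)) : Cx.Qis C C' f where
  toIsMap := hf
  surj n w hw h0 := by
    choose y hy hy' hb using fun j => (hg j).surj n (p' j w) ((hp' j).mem hw) ((hp' j).cyc hw h0)
    refine ⟨∑ j, s j (y j), sum_mem fun j _ => (hs j).mem (hy j), ?_, ?_⟩
    · rw [map_sum]
      exact Finset.sum_eq_zero fun j _ => (hs j).cyc (hy j) (hy' j)
    · have := bd_sum Finset.univ fun j => (hs' j).bd (hb j)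
      simp only [map_add, Finset.sum_add_distrib, tot'] at this
      rw [map_sum, Finset.sum_congr rfl fun j _ => e' j n _ (hy j)]
      exact this
  inj n z hz h0 hb := by
    rw [← tot z]
    exact bd_sum _ fun j => (hs j).bd ((hg j).inj n _ ((hp j).mem hz) ((hp j).cyc hz h0)
      (e j z ▸ (hp' j).bd hb))

lemma qis_shift {C C' : Cx} {f : C.V →+ C'.V} (h : Cx.Qis C C' f) (c : ℤ) :
    Cx.Qis (C.shift c) (C'.shift c) f where
  mem := h.mem
  comm := h.comm
  surj n w hw h0 := by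
    obtain ⟨y, hy, hy', u, hu, e⟩ := h.surj (n + c) w hw h0
    exact ⟨y, hy, hy', u, Cx.mem_cast (C := C') hu (by ring), e⟩
  inj n z hz h0 := by
    rintro ⟨u, hu, e⟩
    obtain ⟨y, hy, e'⟩ := h.inj (n + c) z hz h0 ⟨u, Cx.mem_cast (C := C') hu (by ring), e⟩
    exact ⟨y, Cx.mem_cast (C := C) hy (by ring), e'⟩

variable {K G R : Type} [Field K] [AddCommGroup G] [CommRing R] [Algebra K R] [CharP K 2]
  {A : G → Submodule K R}

lemma regr (M N : DG A) {a b g : G} {k l c : ℤ} (hg : g = b - a) (hc : c = l - k) :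
    Cx.Qis (((homO M N).cx g).shift c) (hom ((M.tg a).sh k) ((N.tg b).sh l)) (AddMonoidHom.id _) :=
  Cx.Qis.of_bij ⟨fun h _ _ _ hm => DG.mem_cast (M := N) (h _ _ _ hm) (by rw [hg]; abel)
    (by rw [hc]; ring), fun _ => rfl⟩ (fun _ _ _ h => h) fun _ w hw =>
      ⟨w, fun g' n' m hm => DG.mem_cast (M := N) (hw (g' - a) (n' - k) m
        (DG.mem_cast (M := M) hm (by abel) (by ring))) (by rw [hg]; abel) (by rw [hc]; ring), rfl⟩

section pi
variable {J : Type} [Fintype J] [DecidableEq J] {T Z : J → DG A}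

/-- The inclusion of a summand. -/
abbrev inj (T : J → DG A) (o : J) : (T o).M →ₗ[R] (pi T).M := LinearMap.single R (fun j => (T j).M) o

/-- The projection to a summand. -/
abbrev prj (T : J → DG A) (o : J) : (pi T).M →ₗ[R] (T o).M := LinearMap.proj o

/-- The sum of a family of maps. -/
def diag (j : ∀ o, (T o).M →ₗ[R] (Z o).M) : (pi T).M →ₗ[R] (pi Z).M :=
  LinearMap.pi fun o => j o ∘ₗ prj T o

lemma prj_hom (o : J) : IsHom (pi T) (T o) (prj T o) := ⟨fun h => h o trivial, fun _ => rfl⟩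

lemma inj_hom (o : J) : IsHom (T o) (pi T) (inj T o) :=
  ⟨fun {g n m} h j _ => by
    change (Pi.single o m : ∀ j, (T j).M) j ∈ _
    by_cases e : j = o
    · subst e; rw [Pi.single_eq_same]; exact h
    · rw [Pi.single_eq_of_ne e]; exact zero_mem ((T j).gr g n), fun m => funext fun j => by
    change (T j).d ((Pi.single o m : ∀ j, (T j).M) j) = (Pi.single o ((T o).d m) : ∀ j, (T j).M) j
    by_cases e : j = o
    · subst e; rw [Pi.single_eq_same, Pi.single_eq_same]
    · rw [Pi.single_eq_of_ne e, Pi.single_eq_of_ne e, map_zero]⟩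

lemma sum_inj_prj : ∑ o, inj T o ∘ₗ prj T o = LinearMap.id := LinearMap.ext fun v => by
  rw [LinearMap.sum_apply]
  exact Finset.univ_sum_single v

lemma prj_inj (o : J) : prj T o ∘ₗ inj T o = LinearMap.id :=
  LinearMap.ext fun _ => Pi.single_eq_same (M := fun j => (T j).M) _ _

lemma prj_inj' {o o' : J} (h : o' ≠ o) : prj T o' ∘ₗ inj T o = 0 :=
  LinearMap.ext fun _ => Pi.single_eq_of_ne (M := fun j => (T j).M) h _

lemma prj_diag (j : ∀ o, (T o).M →ₗ[R] (Z o).M) (o : J) :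
    prj Z o ∘ₗ diag j = j o ∘ₗ prj T o := rfl

lemma diag_inj (j : ∀ o, (T o).M →ₗ[R] (Z o).M) (o : J) :
    diag j ∘ₗ inj T o = inj Z o ∘ₗ j o := LinearMap.ext fun m => funext fun c => by
  change j c ((Pi.single o m : ∀ j, (T j).M) c) = (Pi.single o (j o m) : ∀ j, (Z j).M) c
  by_cases e : c = o
  · subst e; rw [Pi.single_eq_same, Pi.single_eq_same]
  · rw [Pi.single_eq_of_ne e, Pi.single_eq_of_ne e, map_zero]

lemma diag_hom {j : ∀ o, (T o).M →ₗ[R] (Z o).M} (h : ∀ o, IsHom (T o) (Z o) (j o)) :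
    IsHom (pi T) (pi Z) (diag j) :=
  ⟨fun hm o _ => (h o).mem (hm o trivial), fun m => funext fun o => (h o).comm (m o)⟩

lemma map_tot (F : DGF A) (v : (F.obj (pi T)).M) :
    ∑ o, F.map _ _ (inj T o) (F.map _ _ (prj T o) v) = v := by
  simp only [F.comp_apply]
  rw [← LinearMap.sum_apply, ← map_sum, sum_inj_prj, F.id_apply]

lemma diag_qis (F : DGF A) {j : ∀ o, (T o).M →ₗ[R] (Z o).M} (h : ∀ o, IsHom (T o) (Z o) (j o))
    (hq : ∀ o, Qis (F.obj (T o)) (F.obj (Z o)) (F.map _ _ (j o))) :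
    Qis (F.obj (pi T)) (F.obj (pi Z)) (F.map _ _ (diag j)) :=
  ⟨F.isHom (diag_hom h), fun g _ => qis_of_sum ((F.isHom (diag_hom h)).cx g)
    (fun o => (F.isHom (prj_hom o)).cx g) (fun o => (F.isHom (inj_hom o)).cx g)
    (fun o => (F.isHom (prj_hom o)).cx g) (fun o => (F.isHom (inj_hom o)).cx g)
    (map_tot F) (map_tot F) (fun o => (hq o).qis g trivial)
    (fun o v => (F.comp_apply _ _ v).trans (F.comp_apply (j o) (prj T o) v).symm)
    fun o _ v _ => (F.comp_apply _ _ v).trans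
      ((congrArg (F.map _ _ · v) (diag_inj j o)).trans (F.comp_apply _ _ v).symm)⟩

lemma acyc_pi (F : DGF A) (h : ∀ o, (F.obj (T o)).Acyc) : (F.obj (pi T)).Acyc := by
  intro g _ n z hz h0
  rw [← map_tot F z]
  exact bd_sum (C := (F.obj (pi T)).cx g) _ fun o => ((F.isHom (inj_hom o)).cx g).bd
    (h o g trivial n _ ((F.isHom (prj_hom o)).mem hz) (((F.isHom (prj_hom o)).cx g).cyc hz h0))

variable {C : DGR} {T Z : C.O → DG A}

/-- Matrix coefficients of a representation on a direct sum. -/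
structure Mat (T : C.O → DG A) (r : ∀ o o', C.B →+ ((T o).M →ₗ[R] (T o').M)) : Prop where
  e1 : ∀ o, r o o (C.e o) = LinearMap.id
  e0 : ∀ o o' c, o ≠ c ∨ o' ≠ c → r o o' (C.e c) = 0
  mul : ∀ o o' x y, r o o' (x * y) = ∑ c, r c o' x ∘ₗ r o c y
  mem : ∀ o o' {n x}, x ∈ C.gr n → r o o' x ∈ deg (T o) (T o') 0 n
  d : ∀ o o' x, homD _ _ (r o o' x) = r o o' (C.d x)

variable {r : ∀ o o', C.B →+ ((T o).M →ₗ[R] (T o').M)}

variable (r) in
/-- The map with given matrix coefficients. -/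
def mat : C.B →+ ((pi T).M →ₗ[R] (pi T).M) :=
  AddMonoidHom.mk' (fun x => LinearMap.pi fun o' => ∑ o, r o o' x ∘ₗ prj T o) fun x y => by
    ext v o'
    simp [Finset.sum_add_distrib]

lemma mat_apply (x : C.B) (v : (pi T).M) (o' : C.O) : mat r x v o' = ∑ o, r o o' x (v o) := by
  change (∑ o, r o o' x ∘ₗ prj T o) v = _
  rw [LinearMap.sum_apply]
  rfl

lemma prj_mat_inj (x : C.B) (o o' : C.O) : prj T o' ∘ₗ mat r x ∘ₗ inj T o = r o o' x :=
  LinearMap.ext fun m => (mat_apply x _ o').trans (by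
    rw [Finset.sum_eq_single o (fun c _ hc => by
      rw [show inj T o m c = 0 from Pi.single_eq_of_ne (M := fun j => (T j).M) hc _, map_zero])
      (by simp), show inj T o m o = m from Pi.single_eq_same (M := fun j => (T j).M) _ _])

lemma Mat.mat_e (H : Mat T r) (c : C.O) : mat r (C.e c) = inj T c ∘ₗ prj T c :=
  LinearMap.ext fun v => funext fun o' => by
    rw [mat_apply, Finset.sum_eq_single c (fun o _ ho => by rw [H.e0 _ _ _ (Or.inl ho)]; rfl)
      (by simp)]
    change _ = (Pi.single c (v c) : ∀ j, (T j).M) o'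
    by_cases e : o' = c
    · subst e; rw [H.e1, Pi.single_eq_same]; rfl
    · rw [H.e0 _ _ _ (Or.inr e), Pi.single_eq_of_ne e]; rfl

/-- The representation with given matrix coefficients. -/
def Mat.rep (H : Mat T r) : Rep C (pi T) where
  ρ :=
    { toFun := mat r
      map_zero' := map_zero _
      map_add' := map_add _
      map_one' := by
        rw [← C.e_sum, map_sum, Finset.sum_congr rfl fun c _ => H.mat_e c]
        exact sum_inj_prj
      map_mul' x y := LinearMap.ext fun v => funext fun o' => by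
        change mat r (x * y) v o' = mat r x (mat r y v) o'
        rw [mat_apply, mat_apply, Finset.sum_congr rfl fun c _ =>
          (congrArg (r c o' x) (mat_apply y v c)).trans (map_sum _ _ _), Finset.sum_comm]
        exact Finset.sum_congr rfl fun c _ => by rw [H.mul, LinearMap.sum_apply]; rfl }
  ρ_mem {n x} hx g k v hv o' _ := by
    change mat r x v o' ∈ _
    rw [mat_apply]
    exact sum_mem fun o _ => H.mem o o' hx _ _ _ (hv o trivial)
  ρ_d x := LinearMap.ext fun v => funext fun o' => by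
    change (T o').d (mat r x v o') + mat r x ((pi T).d v) o' = mat r (C.d x) v o'
    rw [mat_apply, mat_apply, mat_apply, map_sum, ← Finset.sum_add_distrib]
    exact Finset.sum_congr rfl fun c _ => by rw [← H.d]; rfl

lemma Mat.pr (H : Mat T r) (o o' : C.O) (x : C.B) : r o o' (C.self.pr o o' x) = r o o' x := by
  change r o o' (C.e o' * (x * C.e o)) = _
  rw [H.mul, Finset.sum_eq_single o' (fun c _ hc => by rw [H.e0 _ _ _ (Or.inl hc)]; rfl) (by simp),
    H.e1, LinearMap.id_comp, H.mul, Finset.sum_eq_single o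
      (fun c _ hc => by rw [H.e0 _ _ _ (Or.inr hc), LinearMap.comp_zero]) (by simp), H.e1,
    LinearMap.comp_id]

lemma Mat.lin [Algebra K C.B] (H : Mat T r)
    (h : ∀ o o' (c : K) x, r o o' (c • x) = algebraMap K R c • r o o' x) (c : K) :
    H.rep.ρ (algebraMap K C.B c) = algebraMap K R c • LinearMap.id := by
  rw [Algebra.algebraMap_eq_smul_one, show LinearMap.id = H.rep.ρ 1 from (map_one _).symm]
  refine LinearMap.ext fun v => funext fun o' => ?_
  change mat r (c • 1) v o' = algebraMap K R c • mat r 1 v o'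
  rw [mat_apply, mat_apply, Finset.smul_sum]
  exact Finset.sum_congr rfl fun c _ => by rw [h]; rfl

lemma Mat.qis (H : Mat T r) {j : ∀ o, (T o).M →ₗ[R] (Z o).M} (h : ∀ o, IsHom (T o) (Z o) (j o))
    (hq : ∀ o o', Cx.Qis (C.self.corCx o o') (hom (T o) (Z o'))
      ((LinearMap.llcomp R _ _ _ (j o')).toAddMonoidHom.comp (r o o'))) :
    Cx.Qis C.self.cx (hom (pi T) (pi Z)) (H.rep.unitMap (diag j)) := by
  have h1 : Cx.IsMap C.self.cx (hom (pi T) (pi T)) H.rep.ρ.toAddMonoidHom :=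
    ⟨H.rep.ρ_mem, fun _ => H.rep.ρ_d _⟩
  have h2 : Cx.IsMap C.self.cx (hom (pi T) (pi Z)) (H.rep.unitMap (diag j)) :=
    ((diag_hom h).post (pi T)).comp h1
  refine qis_of_sum (J := C.O × C.O) (Q := fun q => C.self.corCx q.1 q.2)
    (Q' := fun q => hom (T q.1) (Z q.2)) h2
    (p := fun q => C.self.pr q.1 q.2) (s := fun q => AddMonoidHom.id _)
    (p' := fun q => (post (T q.1) (prj Z q.2)).toAddMonoidHom.comp
      (pre (pi Z) (inj T q.1)).toAddMonoidHom)
    (s' := fun q => (post (pi T) (inj Z q.2)).toAddMonoidHom.comp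
      (pre (Z q.2) (prj T q.1)).toAddMonoidHom)
    (fun q => ⟨C.self.pr_mem_cor _ _, fun _ => C.self.d_pr _ _ _⟩)
    (fun q => ⟨fun h => h.1, fun _ => rfl⟩)
    (fun q => ((prj_hom q.2).post (T q.1)).comp ((inj_hom q.1).pre (pi Z)))
    (fun q => ((inj_hom q.2).post (pi T)).comp ((prj_hom q.1).pre (Z q.2)))
    (fun v => ?_) (fun v => ?_) (fun q => hq q.1 q.2) (fun q v => ?_) fun q n v hv => ?_
  · rw [Fintype.sum_prod_type]
    exact C.self.sum_pr v
  · change ∑ q : C.O × C.O, inj Z q.2 ∘ₗ (prj Z q.2 ∘ₗ v ∘ₗ inj T q.1) ∘ₗ prj T q.1 = v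
    refine LinearMap.ext fun m => ?_
    rw [LinearMap.sum_apply, Fintype.sum_prod_type]
    have e : ∀ o, ∑ o', inj Z o' (prj Z o' (v (inj T o (prj T o m)))) = v (inj T o (prj T o m)) :=
      fun o => Finset.univ_sum_single _
    refine (Finset.sum_congr rfl fun o _ => e o).trans ?_
    rw [← map_sum]
    exact congrArg v (Finset.univ_sum_single m)
  · change j q.2 ∘ₗ prj T q.2 ∘ₗ mat r v ∘ₗ inj T q.1 = j q.2 ∘ₗ r q.1 q.2 (C.self.pr q.1 q.2 v)
    rw [prj_mat_inj, H.pr]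
  · change diag j ∘ₗ mat r v = inj Z q.2 ∘ₗ (j q.2 ∘ₗ r q.1 q.2 v) ∘ₗ prj T q.1
    have e : mat r v = mat r (C.e q.2) ∘ₗ mat r v ∘ₗ mat r (C.e q.1) :=
      (congrArg (mat r) hv.2.symm).trans ((map_mul H.rep.ρ _ _).trans
        (congrArg (mat r (C.e q.2) ∘ₗ ·) (map_mul H.rep.ρ _ _)))
    rw [e, H.mat_e, H.mat_e, ← prj_mat_inj, ← LinearMap.comp_assoc _ _ (diag j),
      ← LinearMap.comp_assoc _ _ (diag j), diag_inj]
    rfl

end pi

variable [SetLike.GradedMonoid A] {xs ys : List (HE A)} {M N : DG A}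

lemma isW_pi {J : Type} [Fintype J] [DecidableEq J] {T Z : J → DG A}
    {j : ∀ o, (T o).M →ₗ[R] (Z o).M} (h : ∀ o, IsW xs (T o) (Z o) (j o)) :
    IsW xs (pi T) (pi Z) (diag j) :=
  ⟨diag_hom fun o => (h o).isHom, fun x hx =>
    diag_qis (locF x) (fun o => (h o).isHom) fun o => (h o).qis x hx⟩

lemma isW_tw {f : M.M →ₗ[R] N.M} (h : IsW xs M N f) (a : G) (k : ℤ) :
    IsW xs ((M.tg a).sh k) ((N.tg a).sh k) f :=
  (h.map (DGF.pl_tg a) (DGF.good_tg a fun _ _ => trivial)).map (DGF.pl_sh k) (DGF.good_sh k)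

lemma eqv_isW (e : Eqv xs ys) {f : M.M →ₗ[R] N.M} (h : IsW ys M N f) : IsW xs M N f :=
  (isW_iff h.isHom).2 ((e _).2 ((isW_iff h.isHom).1 h))

lemma eqv_isLocal (e : Eqv xs ys) (h : IsLocal ys M) : IsLocal xs M :=
  acyc_of_torsL_local ((e _).1 (torsL_gam xs M)) (h.gam xs)

lemma free_ring : IsFree (ring A) :=
  ⟨Unit, inferInstance, inferInstance, fun _ => 0, fun _ => 0, fun _ => LinearMap.id, fun _ => 1,
    fun _ _ _ _ h => DG.mem_cast (M := ring A) h (sub_zero _).symm (sub_zero _).symm,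
    fun _ => one_mem_ring, fun m => by simp, fun _ _ => rfl⟩

lemma free_tw (h : IsFree M) (b : G) (k : ℤ) : IsFree ((M.tg b).sh k) := by
  obtain ⟨J, _, _, a, n, p, s, H⟩ := h
  exact ⟨J, inferInstance, inferInstance, fun j => a j - b, fun j => n j - k, p, s,
    fun j _ _ _ h => DG.mem_cast (M := ring A) (H.hp j h) (by abel) (by ring),
    fun j => DG.mem_cast (M := M) (H.hs j) (by abel) (by ring), H.tot, H.ps⟩

lemma free_pi {J : Type} [Fintype J] [DecidableEq J] {T : J → DG A} (h : ∀ o, IsFree (T o)) :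
    IsFree (pi T) := by
  choose I _ _ a n p s H using h
  refine ⟨Σ o, I o, inferInstance, inferInstance, fun q => a q.1 q.2, fun q => n q.1 q.2,
    fun q => p q.1 q.2 ∘ₗ prj T q.1, fun q => inj T q.1 (s q.1 q.2),
    fun q _ _ _ h => (H q.1).hp q.2 (h q.1 trivial), fun q => (inj_hom q.1).mem ((H q.1).hs q.2),
    fun m => ?_, ?_⟩
  · rw [Fintype.sum_sigma]
    refine Eq.trans (Finset.sum_congr rfl fun o _ => ?_) (Finset.univ_sum_single m)
    refine Eq.trans ?_ (congrArg (inj T o) ((H o).tot (m o)))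
    rw [map_sum]
    exact Finset.sum_congr rfl fun i _ => (map_smul _ _ _).symm
  · rintro ⟨o, i⟩ ⟨o', i'⟩
    change p o i ((Pi.single o' (s o' i') : ∀ j, (T j).M) o) = _
    by_cases e : o = o'
    · subst e; rw [Pi.single_eq_same, (H o).ps]; simp
    · rw [Pi.single_eq_of_ne e, map_zero, if_neg fun h => e (congrArg Sigma.fst h)]

end FMX.H45
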