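import Pool.Agent.MP_0e6a9f_ag.H45.RepA

/-! Corners of matrix algebras, of gluings and of semifree bimodules. -/

set_option autoImplicit false
set_option linter.unusedSectionVars false

open FMD FMD.DG MulOpposite
open FMD.DGR (tens tm env)

noncomputable section
namespace FMX.H45

/-- Concentrated in degree 0. -/
structure Flat (C : DGR) : Prop where
  all : ∀ b, b ∈ C.gr 0
  zero : ∀ n, ∀ b ∈ C.gr n, n ≠ 0 → b = 0
  d : ∀ b, C.d b = 0

section corners
variable {A₁ A₂ : DGR} (N : Bimod A₁ A₂)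
open FMD.glue

lemma sum_glue {V : Type} [AddCommMonoid V] (f : (glue N).O → V) :
    ∑ c, f c = ∑ o, f (Sum.inl o) + ∑ o, f (Sum.inr o) := Fintype.sum_sum_type f

variable {N} {x : (glue N).B}

lemma inl_mul {o : A₁.O} (h : (glue N).e (Sum.inl o) * x = x) : (p₂ N).f x = 0 ∧ pN N x = 0 := by
  rw [← h, e_inl]; simp

lemma mul_inr {o : A₂.O} (h : x * (glue N).e (Sum.inr o) = x) : (p₁ N).f x = 0 ∧ pN N x = 0 := by
  rw [← h, e_inr]; simp

lemma inr_mul {o : A₂.O} (h : (glue N).e (Sum.inr o) * x = x) : (p₁ N).f x = 0 := by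
  rw [← h, e_inr]; simp

lemma mul_inl {o : A₁.O} (h : x * (glue N).e (Sum.inl o) = x) : (p₂ N).f x = 0 := by
  rw [← h, e_inl]; simp

variable (N)

lemma cor₁ (o o' : A₁.O) : Cx.Qis ((glue N).self.corCx (Sum.inl o) (Sum.inl o'))
    (A₁.self.corCx o o') (p₁ N).f.toAddMonoidHom :=
  Cx.Qis.of_bij ⟨fun h => ⟨h.1.1, congrArg (p₁ N).f h.2⟩, fun _ => rfl⟩
    (fun _ _ h h0 => ext h0 (inl_mul (Bimod.cor_l h)).1 (inl_mul (Bimod.cor_l h)).2)
    fun _ w hw => ⟨mk N w 0 0, ⟨⟨hw.1, zero_mem _, zero_mem _⟩, ext hw.2 (zero_mul _) (by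
      change pN N (mk N _ 0 0 * (mk N w 0 0 * mk N _ 0 0)) = 0
      simp)⟩, rfl⟩

lemma cor₂ (o o' : A₂.O) : Cx.Qis ((glue N).self.corCx (Sum.inr o) (Sum.inr o'))
    (A₂.self.corCx o o') (p₂ N).f.toAddMonoidHom :=
  Cx.Qis.of_bij ⟨fun h => ⟨h.1.2.1, congrArg (p₂ N).f h.2⟩, fun _ => rfl⟩
    (fun _ _ h h0 => ext (mul_inr (Bimod.cor_r h)).1 h0 (mul_inr (Bimod.cor_r h)).2)
    fun _ w hw => ⟨mk N 0 w 0, ⟨⟨zero_mem _, hw.1, zero_mem _⟩, ext (zero_mul _) hw.2 (by
      change pN N (mk N 0 _ 0 * (mk N 0 w 0 * mk N 0 _ 0)) = 0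
      simp)⟩, rfl⟩

lemma corN (o : A₁.O) (o' : A₂.O) : Cx.Qis ((glue N).self.corCx (Sum.inl o) (Sum.inr o'))
    (N.corCx o o') (pN N) :=
  Cx.Qis.of_bij ⟨fun {_ x} h => N.mem_cor h.1.2.2
      (by simpa [e_inr] using congrArg (pN N) (show mk N 0 _ 0 * x = x from Bimod.cor_l h))
      (by simpa [e_inl] using congrArg (pN N) (show x * mk N (A₁.e o) 0 0 = x from Bimod.cor_r h)),
      fun _ => rfl⟩
    (fun _ _ h h0 => ext (inr_mul (Bimod.cor_l h)) (mul_inl (Bimod.cor_r h)) h0)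
    fun _ w hw => ⟨iN N w, iN_mem_cor hw, rfl⟩

lemma cor₀ (o : A₂.O) (o' : A₁.O) : ((glue N).self.corCx (Sum.inr o) (Sum.inl o')).Acyc := by
  intro n z hz _
  rw [show z = 0 from ext (mul_inr (Bimod.cor_r hz)).1 (inl_mul (Bimod.cor_l hz)).1
    (inl_mul (Bimod.cor_l hz)).2]
  exact Cx.Bd.zero n

end corners

variable {K G R : Type} [Field K] [AddCommGroup G] [CommRing R] [Algebra K R]
  {A : G → Submodule K R} {C : DGR} [Algebra K C.B]

lemma Flat.env [C.KL K] (h : Flat C) : Flat (env K C C) where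
  all b := DGR.tens_ind b (zero_mem _) (fun x y => DGR.tm_mem (h.all x) (h.all y.unop) rfl)
    fun _ _ => add_mem
  zero n b hb hn := DGR.tens_gr_le (AddMonoidHom.id _) ⊥ (fun i j x y hx hy e => by
    by_cases hi : i = 0
    · rw [show y = 0 from unop_injective (h.zero j _ hy (by omega))]; simp
    · rw [h.zero i x hx hi]; simp) hb
  d b := DGR.tens_ind b (map_zero _) (fun x y => by
    rw [DGR.d_tm, h.d, show C.op.d y = 0 from congrArg op (h.d y.unop)]; simp)
    fun x y hx hy => by rw [map_add, hx, hy, add_zero]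

/-- The transposed realization. -/
def opθ (θ : C.B →ₐ[K] Matrix C.O C.O R) : C.op.B →ₐ[K] Matrix C.op.O C.op.O R where
  toFun b := (θ b.unop).transpose
  map_one' := by simp
  map_mul' x y := by simp [Matrix.transpose_mul]
  map_zero' := by simp
  map_add' x y := by simp
  commutes' c := by
    change (θ (algebraMap K C.B c)).transpose = _
    rw [θ.commutes, Matrix.algebraMap_eq_diagonal, Matrix.diagonal_transpose]

variable {a : C.O → G} {θ : C.B →ₐ[K] Matrix C.O C.O R}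

lemma theta_op (H : Theta C A a θ) : Theta C.op A (fun o => -a o) (opθ θ) where
  e o := (congrArg Matrix.transpose (H.e o)).trans (Matrix.transpose_single _ _ _)
  mem b o' o := by
    rw [show -a o' - -a o = a o - a o' by abel]
    exact H.mem b.unop o o'
  inj x y h := unop_injective (H.inj (Matrix.transpose_injective h))
  surj M hM := by
    obtain ⟨b, hb⟩ := H.surj M.transpose fun o' o => by
      rw [show a o' - a o = -a o - -a o' by abel]
      exact hM o o'
    exact ⟨op b, congrArg Matrix.transpose hb⟩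

lemma theta_unop {a' : C.O → G} {θ' : C.op.B →ₐ[K] Matrix C.op.O C.op.O R}
    (H : Theta C.op A a' θ') (ha : ∀ o, a' o = -a o) (h : ∀ b, θ b = (θ' (op b)).transpose) :
    Theta C A a θ where
  e o := (h _).trans ((congrArg Matrix.transpose (H.e o)).trans (Matrix.transpose_single _ _ _))
  mem b o' o := by
    rw [h, show a o' - a o = a' o - a' o' by rw [ha, ha]; abel]
    exact H.mem (op b) o o'
  inj x y e := op_injective (H.inj (Matrix.transpose_injective ((h x).symm.trans (e.trans (h y)))))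
  surj M hM := by
    obtain ⟨b, hb⟩ := H.surj M.transpose fun o' o => by
      rw [show a' o' - a' o = a o - a o' by rw [ha, ha]; abel]
      exact hM o o'
    exact ⟨b.unop, (h _).trans (congrArg Matrix.transpose hb)⟩

lemma theta_mul (H : Theta C A a θ) {x : C.B} {c : C.O} (hx : x * C.e c = x) (y : C.B)
    (o' o : C.O) : θ (x * y) o' o = θ x o' c * θ y c o := by
  rw [← hx, map_mul, Matrix.mul_apply, Finset.sum_eq_single c (fun k _ hk => by
    rw [map_mul, H.e, Matrix.mul_single_apply_of_ne _ _ _ _ _ hk, zero_mul]) (by simp)]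

lemma theta_inj (H : Theta C A a θ) {x : C.B} {o' o : C.O} (h1 : C.e o' * x = x)
    (h2 : x * C.e o = x) (h : θ x o' o = 0) : x = 0 := H.inj (by
  rw [← h2, ← h1, map_mul, map_mul, H.e, H.e, Matrix.single_mul_mul_single, h]
  simp)

variable [CharP K 2] [SetLike.GradedMonoid A]

lemma mem_ring {g : G} {r : R} (h : r ∈ A g) : r ∈ (ring A).gr g 0 := h

lemma theta_mem (H : Theta C A a θ) (hC : Flat C) {n : ℤ} {x : C.B} (hx : x ∈ C.gr n)
    (o' o : C.O) : θ x o' o ∈ (ring A).gr (a o' - a o) n := by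
  by_cases hn : n = 0
  · exact hn ▸ mem_ring (H.mem x o' o)
  · rw [hC.zero n x hx hn, map_zero]; exact zero_mem _

lemma theta_surj (H : Theta C A a θ) (hC : Flat C) {n : ℤ} {r : R} {o' o : C.O}
    (hr : r ∈ (ring A).gr (a o' - a o) n) : ∃ x ∈ C.self.cor o o' n, θ x o' o = r := by
  by_cases hn : n = 0
  · subst hn
    obtain ⟨b, hb⟩ := H.surj (Matrix.single o' o r) fun c' c => by
      by_cases e : o' = c' ∧ o = c
      · obtain ⟨rfl, rfl⟩ := e
        rw [Matrix.single_apply_same]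
        exact hr
      · rw [Matrix.single_apply_of_ne _ _ _ _ _ e]; exact zero_mem _
    refine ⟨C.e o' * (b * C.e o), C.self.pr_mem_cor o o' (hC.all b), ?_⟩
    simp [H.e, hb]
  · exact ⟨0, zero_mem _, by rw [eq_zero_of_mem_ring hr hn, map_zero]; rfl⟩

/-- A matrix entry. -/
def ent (θ : C.B →ₐ[K] Matrix C.O C.O R) (o' o : C.O) : C.B →+ R :=
  AddMonoidHom.mk' (fun x => θ x o' o) fun x y => by rw [map_add]; rfl

lemma theta_qis (H : Theta C A a θ) (hC : Flat C) (o o' : C.O) :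
    Cx.Qis (C.self.corCx o o') (((ring A).cx (a o' - a o)).shift 0) (ent (R := R) θ o' o) :=
  Cx.Qis.of_bij ⟨fun h => DG.mem_cast (theta_mem H hC h.1 o' o) rfl (add_zero _).symm,
      fun {_ x} _ => ((congrArg (ent θ o' o) (hC.d x)).trans (map_zero _)).symm⟩
    (fun _ _ h h0 => theta_inj H (Bimod.cor_l h) (Bimod.cor_r h) h0)
    fun _ _ hw => theta_surj H hC (DG.mem_cast (M := ring A) hw rfl (add_zero _))

section row
variable [C.KL K] {b : (env K C C).O → G}
  {Θ : (env K C C).B →ₐ[K] Matrix (env K C C).O (env K C C).O R}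
  (H : Theta (env K C C) A b Θ) (hC : Flat C) (n : Tw (env K C C))

lemma sum_env (f : (env K C C).O → R) : ∑ q, f q = ∑ c', ∑ c, f (c', c) :=
  Fintype.sum_prod_type f

variable (Θ) in
/-- The differential on the generators. -/
def dl : Matrix n.I n.I R := fun i j => Θ (n.δ i j) (n.ob i) (n.ob j)

variable (Θ) in
/-- The coordinates of the part of a row in a corner. -/
def row (q : (env K C C).O) : (Fr n).H →+ (n.I → R) :=
  AddMonoidHom.mk' (fun x i => Θ (Fr.val n x i) q (n.ob i)) fun x y => funext fun i => by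
    rw [map_add, Pi.add_apply, map_add]; rfl

include H in
lemma dl_mem (i j : n.I) : dl Θ n i j ∈ A (b (n.ob i) - b (n.ob j)) := H.mem _ _ _

include hC in
lemma dl_lev {m : ℤ} {lev : n.I → ℕ} (hl : ∀ i, (lev i : ℤ) = n.deg i - m) (i j : n.I)
    (h : dl Θ n i j ≠ 0) : lev j = lev i + 1 := by
  have : 1 + n.deg i - n.deg j = 0 := by
    by_contra e
    exact h (by rw [dl, hC.env.zero _ _ (n.δ_mem i j).1 e, map_zero]; rfl)
  have := hl i
  have := hl j
  omega

include H hC in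
lemma dl_dl : dl Θ n * dl Θ n = 0 := Matrix.ext fun i j => by
  have e : (env K C C).d (n.δ i j) = ∑ k, n.δ i k * n.δ k j := congrFun (congrFun n.mc i) j
  have e' := congrArg (ent Θ (n.ob i) (n.ob j)) ((hC.env.d _).symm.trans e)
  rw [map_zero, map_sum] at e'
  exact (Finset.sum_congr rfl fun k _ =>
    (theta_mul H (Bimod.cor_r (n.δ_mem i k)) _ _ _).symm).trans e'.symm

include H hC in
lemma row_d (q : (env K C C).O) (x : (Fr n).H) :
    row Θ n q ((Fr n).d x) = Matrix.vecMul (row Θ n q x) (dl Θ n) := funext fun j => by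
  change ent Θ q (n.ob j) (Fr.val n ((Fr n).d x) j) = _
  rw [Fr.val_d, hC.env.d, zero_add, map_sum]
  exact Finset.sum_congr rfl fun i _ => theta_mul H (Fr.val_e x i) _ _ _

include H hC in
lemma row_mem (q : (env K C C).O) {k : ℤ} {x : (Fr n).H} (hx : x ∈ (Fr n).gr k) (i : n.I) :
    row Θ n q x i ∈ (ring A).gr (b q - b (n.ob i)) (k - n.deg i) :=
  theta_mem H hC.env (hx i) _ _

lemma row_smul (q : (env K C C).O) (c : K) (x : (Fr n).H) (i : n.I) :
    row Θ n q (c • x) i = c • row Θ n q x i := by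
  change Θ (Fr.val n (c • x) i) q (n.ob i) = _
  rw [map_smul, Pi.smul_apply, map_smul]
  rfl

lemma row_qis {m : ℤ} {lev : n.I → ℕ} (hl : ∀ i, (lev i : ℤ) = n.deg i - m) (o o' : C.O) :
    Cx.Qis ((Fr n).corCx o o') (((Wc A (fun i => b (n.ob i)) lev (dl Θ n) (dl_mem H n)
      (dl_lev hC n hl) (dl_dl H hC n)).cx (b (o', o))).shift (-m)) (row Θ n (o', o)) := by
  have key : ∀ x : (Fr n).H, ∀ i, Fr.val n ((Fr n).pr o o' x) i =
      (env K C C).e (o', o) * Fr.val n x i := fun x i => Fr.val_act ((env K C C).e (o', o)) x i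
  refine Cx.Qis.of_bij ⟨fun h i => DG.mem_cast (row_mem H hC n _ h.1 i) rfl (by rw [hl]; ring),
    fun {_ x} _ => (row_d H hC n _ x).symm⟩
    (fun _ x h h0 => Fr.ext fun i => theta_inj H ((key x i).symm.trans (by rw [h.2]))
      (Fr.val_e x i) (congrFun h0 i)) fun k w hw => ?_
  choose x hx e using fun i => theta_surj H hC.env (n := k - n.deg i)
    (DG.mem_cast (M := ring A) (hw i) rfl (by rw [hl]; ring))
  have v : ∀ i, Fr.val n (Fr.mk n x) i = x i := fun i => Bimod.cor_r (hx i)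
  refine ⟨Fr.mk n x, ⟨Fr.mem_gr.2 fun i => (v i).symm ▸ (hx i).1, Fr.ext fun i => ?_⟩, funext fun i => ?_⟩
  · rw [key, v]; exact Bimod.cor_l (hx i)
  · exact (congrArg (ent Θ (o', o) (n.ob i)) (v i)).trans (e i)

variable {θ₁ θ₂ : C.B →ₐ[K] Matrix C.O C.O R}
  (hΘ : ∀ x y o₁' o₂' o₁ o₂, Θ (tm K C C.op x (op y)) (o₁', o₂') (o₁, o₂) =
    θ₂ x o₁' o₁ * θ₁ y o₂ o₂')

include hΘ in
lemma row_l (y : C.B) (x : (Fr n).H) (o' o : C.O) (i : n.I) :
    row Θ n (o', o) (y • x) i = ∑ c, θ₂ y o' c * row Θ n (c, o) x i := by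
  change Θ (tm K C C.op y (op 1) * Fr.val n x i) (o', o) (n.ob i) = _
  rw [map_mul, Matrix.mul_apply, sum_env]
  refine Finset.sum_congr rfl fun c _ => ?_
  simp only [hΘ, map_one]
  rw [Finset.sum_eq_single o (fun k _ hk => by simp [hk]) (by simp)]
  simp [row]

include hΘ in
lemma row_r (y : C.B) (x : (Fr n).H) (o' o : C.O) (i : n.I) :
    row Θ n (o', o) (op y • x) i = ∑ c, θ₁ y c o * row Θ n (o', c) x i := by
  change Θ (tm K C C.op 1 (op y) * Fr.val n x i) (o', o) (n.ob i) = _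
  rw [map_mul, Matrix.mul_apply, sum_env, Finset.sum_comm]
  refine Finset.sum_congr rfl fun c _ => ?_
  simp only [hΘ, map_one]
  rw [Finset.sum_eq_single o' (fun k _ hk => by simp [hk.symm]) (by simp)]
  simp [row]

end row

end FMX.H45
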